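import Mathlib

/-!
# Definitions for the statement about extreme points of the hull of Laplacian spectra
-/

namespace Pool.Agent.MP_8604ae_co

open scoped Classical in
/-- `x` is the list of the Laplacian eigenvalues of `G`, with multiplicity, in nonincreasing
order. -/
def IsSpectrum {n : ℕ} (G : SimpleGraph (Fin n)) (x : Fin n → ℝ) : Prop :=
  Antitone x ∧ (G.lapMatrix ℝ).charpoly = ∏ i, (Polynomial.X - Polynomial.C (x i))

/-- The set of all sorted Laplacian spectra of graphs on `n` vertices. -/
def spectra (n : ℕ) : Set (Fin n → ℝ) := {x | ∃ G : SimpleGraph (Fin n), IsSpectrum G x}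

/-- The polytope `P_n`. -/
def P (n : ℕ) : Set (Fin n → ℝ) := convexHull ℝ (spectra n)

/-- Threshold graphs: for some order `e 0, e 1, ...` of the vertices, each vertex `e j` is either
adjacent to all earlier vertices (`b j`) or to no earlier vertex (`¬ b j`). -/
def IsThreshold {n : ℕ} (G : SimpleGraph (Fin n)) : Prop :=
  ∃ (e : Equiv.Perm (Fin n)) (b : Fin n → Prop), ∀ i j, i < j → (G.Adj (e i) (e j) ↔ b j)

/-- The spectra of threshold graphs on `n` vertices. -/
def thresholdSpectra (n : ℕ) : Set (Fin n → ℝ) :=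
  {x | ∃ G : SimpleGraph (Fin n), IsThreshold G ∧ IsSpectrum G x}

/-- The sum of the first `p` entries of `x` (all entries if `p ≥ n`). -/
def topSum {n : ℕ} (x : Fin n → ℝ) (p : ℕ) : ℝ := 
  ∑ i ∈ Finset.univ.filter (fun i : Fin n => (i : ℕ) < p), x i

/-- The inequalities `x_1+...+x_p + x_1+...+x_q ≤ (x_1+...+x_n) + p (q+1)`, `1 ≤ p ≤ q < n`. -/
def Ineq {n : ℕ} (x : Fin n → ℝ) : Prop :=
  ∀ p q : ℕ, 1 ≤ p → p ≤ q → q < n → topSum x p + topSum x q ≤ topSum x n + p * (q + 1)

/-- Cographs: the smallest class of graphs containing the one-vertex graph and closed under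
complements and disjoint unions. -/
inductive IsCograph : (n : ℕ) → SimpleGraph (Fin n) → Prop
  | single : IsCograph 1 ⊥
  | compl {n : ℕ} {G : SimpleGraph (Fin n)} : IsCograph n G → IsCograph n Gᶜ
  | union {a b n : ℕ} {G : SimpleGraph (Fin a)} {H : SimpleGraph (Fin b)}
      {K : SimpleGraph (Fin n)} : IsCograph a G → IsCograph b H →
      Nonempty (K ≃g SimpleGraph.sum G H) → IsCograph n K

end Pool.Agent.MP_8604ae_co
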