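import Mathlib

/-!
# Laplacian eigenvalue multisets: isomorphism, complement, isolated vertices
-/

namespace Pool.Agent.MP_8604ae_co

open Matrix Polynomial

variable {V W : Type*} [Fintype V] [Fintype W]

open scoped Classical in
/-- The multiset of Laplacian eigenvalues. -/
noncomputable def ms (G : SimpleGraph V) : Multiset ℝ := (G.lapMatrix ℝ).charpoly.roots

lemma roots_congr (G : SimpleGraph V) (i1 i2 : DecidableEq V) (j1 j2 : DecidableRel G.Adj) :
    (@Matrix.charpoly ℝ _ V i1 _ (@SimpleGraph.lapMatrix V ℝ _ G j1 i1 _)).roots =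
    (@Matrix.charpoly ℝ _ V i2 _ (@SimpleGraph.lapMatrix V ℝ _ G j2 i2 _)).roots := by
  rw [Subsingleton.elim i1 i2, Subsingleton.elim j1 j2]

lemma ms_def (G : SimpleGraph V) [i : DecidableEq V] [j : DecidableRel G.Adj] :
    ms G = (G.lapMatrix ℝ).charpoly.roots :=
  roots_congr G _ i _ j

lemma charpoly_lap (G : SimpleGraph V) [DecidableEq V] [DecidableRel G.Adj] :
    (G.lapMatrix ℝ).charpoly = ((ms G).map (fun t => X - C t)).prod := by
  rw [ms_def]
  have h : (G.lapMatrix ℝ).charpoly.Splits := (G.isHermitian_lapMatrix ℝ).splits_charpoly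
  have h2 := h.eq_prod_roots
  rw [(Matrix.charpoly_monic _).leadingCoeff] at h2
  simpa using h2

lemma ms_card (G : SimpleGraph V) : Multiset.card (ms G) = Fintype.card V := by
  classical
  rw [ms_def, (G.isHermitian_lapMatrix ℝ).roots_charpoly_eq_eigenvalues]
  simp

lemma lap_apply (G : SimpleGraph V) [DecidableEq V] [DecidableRel G.Adj] (i j : V) :
    G.lapMatrix ℝ i j = (if i = j then (G.degree i : ℝ) else 0) - (if G.Adj i j then 1 else 0) := by
  simp [SimpleGraph.lapMatrix, SimpleGraph.degMatrix, Matrix.diagonal_apply,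
    SimpleGraph.adjMatrix_apply]

/-- Isomorphism invariance. -/
lemma ms_iso {G : SimpleGraph V} {H : SimpleGraph W} (e : G ≃g H) : ms G = ms H := by
  classical
  rw [ms_def, ms_def]
  have : H.lapMatrix ℝ = Matrix.reindex e.toEquiv e.toEquiv (G.lapMatrix ℝ) := by
    ext i j
    rw [Matrix.reindex_apply, Matrix.submatrix_apply, lap_apply, lap_apply]
    have h1 : (e.toEquiv.symm i = e.toEquiv.symm j) ↔ i = j := e.toEquiv.symm.injective.eq_iff
    have h2 : G.Adj (e.toEquiv.symm i) (e.toEquiv.symm j) ↔ H.Adj i j := by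
      rw [← e.map_adj_iff]
      change H.Adj (e.toEquiv (e.toEquiv.symm i)) (e.toEquiv (e.toEquiv.symm j)) ↔ _
      rw [Equiv.apply_symm_apply, Equiv.apply_symm_apply]
    have h3 : G.degree (e.toEquiv.symm i) = H.degree i := by
      have h4 := e.degree_eq (e.toEquiv.symm i)
      rw [← h4]
      change H.degree (e.toEquiv (e.toEquiv.symm i)) = _
      rw [Equiv.apply_symm_apply]
    simp only [h1, h2, h3]
  rw [this, Matrix.charpoly_reindex]

/-- An eigenvector for each member of the multiset. -/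
lemma exists_eigvec (G : SimpleGraph V) [DecidableEq V] [DecidableRel G.Adj] {t : ℝ}
    (ht : t ∈ ms G) : ∃ v : V → ℝ, v ≠ 0 ∧ (G.lapMatrix ℝ) *ᵥ v = t • v := by
  rw [ms_def, mem_roots (Matrix.charpoly_monic _).ne_zero, IsRoot.def, Matrix.eval_charpoly] at ht
  obtain ⟨v, hv, hv'⟩ := Matrix.exists_mulVec_eq_zero_iff.2 ht
  refine ⟨v, hv, ?_⟩
  rw [Matrix.sub_mulVec] at hv'
  have h2 : (Matrix.scalar V) t *ᵥ v = t • v := by
    ext i
    simp [Matrix.scalar_apply, Matrix.mulVec_diagonal]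
  rw [h2] at hv'
  exact (sub_eq_zero.1 hv').symm

/-- The quadratic form. -/
lemma quad (G : SimpleGraph V) [DecidableEq V] [DecidableRel G.Adj] (v : V → ℝ) :
    v ⬝ᵥ ((G.lapMatrix ℝ) *ᵥ v) = (∑ i, ∑ j, if G.Adj i j then (v i - v j) ^ 2 else 0) / 2 := by
  rw [← G.lapMatrix_toLinearMap₂' ℝ v, Matrix.toLinearMap₂'_apply']

lemma dot_self_pos {v : V → ℝ} (hv : v ≠ 0) : 0 < v ⬝ᵥ v := by
  obtain ⟨i, hi⟩ := Function.ne_iff.1 hv
  unfold dotProduct
  refine Finset.sum_pos' (fun j _ => mul_self_nonneg _) ⟨i, Finset.mem_univ i, ?_⟩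
  exact mul_self_pos.2 hi

lemma ms_nonneg (G : SimpleGraph V) {t : ℝ} (ht : t ∈ ms G) : 0 ≤ t := by
  classical
  obtain ⟨v, hv, hv'⟩ := exists_eigvec G ht
  have h := quad G v
  rw [hv', dotProduct_smul, smul_eq_mul] at h
  have h1 : 0 < v ⬝ᵥ v := dot_self_pos hv
  have h2 : 0 ≤ (∑ i, ∑ j, if G.Adj i j then (v i - v j) ^ 2 else 0) / 2 := by
    apply div_nonneg _ (by norm_num)
    exact Finset.sum_nonneg (fun i _ => Finset.sum_nonneg (fun j _ => by split_ifs <;> positivity))
  by_contra hcon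
  push Not at hcon
  nlinarith


/-- Vertices outside `C` are isolated. -/
lemma ms_block (G : SimpleGraph V) (C : Set V) [Fintype C] [Fintype (Cᶜ : Set V)]
    (h : ∀ u w, G.Adj u w → u ∈ C) :
    ms G = ms (G.induce C) + Multiset.replicate (Fintype.card (Cᶜ : Set V)) 0 := by
  classical
  have h' : ∀ u w, G.Adj u w → w ∈ C := fun u w huw => h w u huw.symm
  let e : C ⊕ (Cᶜ : Set V) ≃ V := Equiv.Set.sumCompl C
  have e1 : ∀ c : C, e (Sum.inl c) = c := fun c => rfl
  have e2 : ∀ c : (Cᶜ : Set V), e (Sum.inr c) = c := fun c => rfl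
  have hdeg : ∀ c : C, (G.degree (c : V) : ℝ) = ((G.induce C).degree c : ℝ) := by
    intro c
    rw [SimpleGraph.degree_eq_sum_if_adj, SimpleGraph.degree_eq_sum_if_adj, ← e.sum_comp,
      Fintype.sum_sum_type]
    have : ∑ x : (Cᶜ : Set V), (if G.Adj (c : V) (e (Sum.inr x)) then (1:ℝ) else 0) = 0 := by
      apply Finset.sum_eq_zero
      intro x _
      rw [e2, if_neg]
      intro hx
      exact x.2 (h' _ _ hx)
    rw [this, add_zero]
    apply Finset.sum_congr rfl
    intro x _
    rw [e1]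
    rfl
  have hdeg0 : ∀ c : (Cᶜ : Set V), (G.degree (c : V) : ℝ) = 0 := by
    intro c
    rw [SimpleGraph.degree_eq_sum_if_adj]
    apply Finset.sum_eq_zero
    intro x _
    rw [if_neg]
    intro hx
    exact c.2 (h _ _ hx)
  have hblock : Matrix.reindex e.symm e.symm (G.lapMatrix ℝ) =
      Matrix.fromBlocks ((G.induce C).lapMatrix ℝ) 0 0 0 := by
    ext i j
    rw [Matrix.reindex_apply, Matrix.submatrix_apply, Equiv.symm_symm]
    rcases i with i | i <;> rcases j with j | j
    · rw [Matrix.fromBlocks_apply₁₁, lap_apply, lap_apply, e1, e1, hdeg]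
      have a1 : ((i : V) = (j : V)) ↔ i = j := Subtype.coe_injective.eq_iff
      have a2 : G.Adj (i : V) (j : V) ↔ (G.induce C).Adj i j := Iff.rfl
      simp only [a1, a2]
    · rw [Matrix.fromBlocks_apply₁₂, lap_apply, e1, e2]
      have a1 : (i : V) ≠ (j : V) := fun hij => j.2 (hij ▸ i.2)
      have a2 : ¬ G.Adj (i : V) (j : V) := fun hij => j.2 (h' _ _ hij)
      simp [a1, a2]
    · rw [Matrix.fromBlocks_apply₂₁, lap_apply, e1, e2]
      have a1 : (i : V) ≠ (j : V) := fun hij => i.2 (hij ▸ j.2)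
      have a2 : ¬ G.Adj (i : V) (j : V) := fun hij => i.2 (h _ _ hij)
      simp [a1, a2]
    · rw [Matrix.fromBlocks_apply₂₂, lap_apply, e2, e2, hdeg0]
      have a2 : ¬ G.Adj (i : V) (j : V) := fun hij => i.2 (h _ _ hij)
      simp [a2]
  have hch : (G.lapMatrix ℝ).charpoly =
      ((G.induce C).lapMatrix ℝ).charpoly * X ^ (Fintype.card (Cᶜ : Set V)) := by
    rw [← Matrix.charpoly_reindex e.symm, hblock, Matrix.charpoly_fromBlocks_zero₁₂,
      Matrix.charpoly_zero]
  rw [ms_def, hch, Polynomial.roots_mul, Polynomial.roots_X_pow, ms_def]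
  · rw [Multiset.nsmul_singleton]
  · apply mul_ne_zero (Matrix.charpoly_monic _).ne_zero
    exact pow_ne_zero _ X_ne_zero

/-- The complement. -/
lemma ms_compl [Nonempty V] (G : SimpleGraph V) :
    (Fintype.card V : ℝ) ::ₘ ms Gᶜ = 0 ::ₘ (ms G).map (fun t => (Fintype.card V : ℝ) - t) := by
  classical
  set n : ℝ := (Fintype.card V : ℝ) with hn
  let J : Matrix V V ℝ := Matrix.vecMulVec (fun _ => 1) (fun _ => 1)
  have hJ : ∀ i j, J i j = 1 := by intro i j; simp [J, Matrix.vecMulVec_apply]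
  let L := G.lapMatrix ℝ
  let L' := Gᶜ.lapMatrix ℝ
  have hLJ : L * J = 0 := by
    ext i j
    rw [Matrix.mul_apply]
    have := congrFun (G.lapMatrix_mulVec_const_eq_zero (R := ℝ)) i
    rw [Matrix.mulVec, dotProduct] at this
    simpa [hJ] using this
  have hJJ : J * J = n • J := by
    ext i j
    rw [Matrix.mul_apply, Matrix.smul_apply, hJ]
    simp [hJ, hn]
  have hL' : L' = n • (1 : Matrix V V ℝ) - J - L := by
    ext i j
    rw [Matrix.sub_apply, Matrix.sub_apply, Matrix.smul_apply, Matrix.one_apply, hJ]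
    change Gᶜ.lapMatrix ℝ i j = _ - 1 - G.lapMatrix ℝ i j
    rw [lap_apply, lap_apply]
    by_cases hij : i = j
    · subst hij
      have hd : (Gᶜ.degree i : ℝ) = n - 1 - G.degree i := by
        rw [SimpleGraph.degree_eq_sum_if_adj, SimpleGraph.degree_eq_sum_if_adj]
        have : ∀ x, (if Gᶜ.Adj i x then (1:ℝ) else 0) =
            1 - (if i = x then 1 else 0) - (if G.Adj i x then 1 else 0) := by
          intro x
          by_cases h1 : i = x
          · subst h1; simp
          · by_cases h2 : G.Adj i x <;> simp [h1, h2]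
        simp only [this, Finset.sum_sub_distrib, Finset.sum_ite_eq, Finset.mem_univ, if_true]
        simp [hn]
      simp [hd]
    · by_cases h2 : G.Adj i j
      · simp [hij, h2]
      · simp [hij, h2]
  -- polynomial identity
  have hpoly : L'.charmatrix * J.charmatrix =
      (X : ℝ[X]) • (Matrix.charmatrix (n • (1 : Matrix V V ℝ) - L)) := by
    have hcm : ∀ M : Matrix V V ℝ, M.charmatrix = Matrix.scalar V (X : ℝ[X]) - C.mapMatrix M :=
      fun M => rfl
    rw [hcm, hcm, hcm, hL']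
    simp only [map_sub]
    have e1 : (C : ℝ →+* ℝ[X]).mapMatrix L * (C : ℝ →+* ℝ[X]).mapMatrix J = 0 := by
      rw [← map_mul, hLJ, map_zero]
    have e2 : (C : ℝ →+* ℝ[X]).mapMatrix J * (C : ℝ →+* ℝ[X]).mapMatrix J
        = (C : ℝ →+* ℝ[X]).mapMatrix (n • (1 : Matrix V V ℝ)) * (C : ℝ →+* ℝ[X]).mapMatrix J := by
      rw [← map_mul, ← map_mul, hJJ, Matrix.smul_mul, Matrix.one_mul]
    have e3 : ∀ M : Matrix V V ℝ[X], M * Matrix.scalar V (X : ℝ[X]) =
        Matrix.scalar V (X : ℝ[X]) * M := by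
      intro M
      exact ((Matrix.scalar_commute (X : ℝ[X]) (fun r => Commute.all _ _) M).eq).symm
    have e4 : ∀ M : Matrix V V ℝ[X], (X : ℝ[X]) • M = Matrix.scalar V (X : ℝ[X]) * M := by
      intro M
      rw [Matrix.scalar_apply, ← Matrix.smul_eq_diagonal_mul]
    rw [e4]
    have : (Matrix.scalar V (X : ℝ[X]) - ((C : ℝ →+* ℝ[X]).mapMatrix (n • (1 : Matrix V V ℝ))
        - (C : ℝ →+* ℝ[X]).mapMatrix J - (C : ℝ →+* ℝ[X]).mapMatrix L)) *
        (Matrix.scalar V (X : ℝ[X]) - (C : ℝ →+* ℝ[X]).mapMatrix J) =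
        Matrix.scalar V (X : ℝ[X]) * (Matrix.scalar V (X : ℝ[X]) -
          ((C : ℝ →+* ℝ[X]).mapMatrix (n • (1 : Matrix V V ℝ)) - (C : ℝ →+* ℝ[X]).mapMatrix L)) := by
      simp only [sub_mul, mul_sub, e1, e2, e3]
      abel
    exact this
  have hdet := congrArg Matrix.det hpoly
  rw [Matrix.det_mul, Matrix.det_smul] at hdet
  change L'.charpoly * J.charpoly = X ^ Fintype.card V * (n • (1 : Matrix V V ℝ) - L).charpoly
    at hdet
  have hJc : J.charpoly = X ^ Fintype.card V - C n * X ^ (Fintype.card V - 1) := by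
    have := Matrix.charpoly_vecMulVec (n := V) (R := ℝ) (fun _ => 1) (fun _ => 1)
    change J.charpoly = _ at this
    rw [this, Polynomial.smul_eq_C_mul]
    simp [hn, dotProduct]
  have hpos : 1 ≤ Fintype.card V := Fintype.card_pos
  have hXJ : X * J.charpoly = X ^ Fintype.card V * (X - C n) := by
    rw [hJc]
    obtain ⟨k, hk⟩ : ∃ k, Fintype.card V = k + 1 := ⟨Fintype.card V - 1, by omega⟩
    rw [hk]
    simp only [Nat.add_sub_cancel]
    ring
  have hfin : L'.charpoly * (X - C n) = X * (n • (1 : Matrix V V ℝ) - L).charpoly := by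
    have h1 : (X : ℝ[X]) ^ Fintype.card V ≠ 0 := pow_ne_zero _ X_ne_zero
    apply mul_left_cancel₀ h1
    calc X ^ Fintype.card V * (L'.charpoly * (X - C n))
        = L'.charpoly * (X ^ Fintype.card V * (X - C n)) := by ring
      _ = L'.charpoly * (X * J.charpoly) := by rw [hXJ]
      _ = X * (L'.charpoly * J.charpoly) := by ring
      _ = X * (X ^ Fintype.card V * (n • (1 : Matrix V V ℝ) - L).charpoly) := by rw [hdet]
      _ = X ^ Fintype.card V * (X * (n • (1 : Matrix V V ℝ) - L).charpoly) := by ring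
  have hH : L.IsHermitian := G.isHermitian_lapMatrix ℝ
  have hcf : (n • (1 : Matrix V V ℝ) - L).charpoly =
      ∏ i, (X - C (n - hH.eigenvalues i)) := by
    have h1 := hH.charpoly_cfc_eq (fun t => n - t)
    have h2 : cfc (fun t : ℝ => n - t) L = n • (1 : Matrix V V ℝ) - L := by
      have hs : IsSelfAdjoint L := hH
      rw [cfc_sub (fun _ => n) (fun t => t) L, cfc_const n L, cfc_id' ℝ L]
      congr 1
      rw [Algebra.algebraMap_eq_smul_one]
    rw [h2] at h1
    simpa using h1
  have hroots := congrArg Polynomial.roots hfin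
  have hne1 : L'.charpoly * (X - C n) ≠ 0 :=
    mul_ne_zero (Matrix.charpoly_monic _).ne_zero (X_sub_C_ne_zero n)
  have hne2 : X * (n • (1 : Matrix V V ℝ) - L).charpoly ≠ 0 := by rw [← hfin]; exact hne1
  rw [Polynomial.roots_mul hne1, Polynomial.roots_mul hne2, Polynomial.roots_X_sub_C,
    Polynomial.roots_X, hcf, Polynomial.roots_prod _ _ (by
      rw [Finset.prod_ne_zero_iff]; intro i _; exact X_sub_C_ne_zero _)] at hroots
  have hms : ms G = Finset.univ.val.map hH.eigenvalues := by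
    rw [ms_def, hH.roots_charpoly_eq_eigenvalues]
    rfl
  have hms' : ms Gᶜ = L'.charpoly.roots := ms_def _
  rw [hms', hms, Multiset.map_map]
  rw [← Multiset.singleton_add, ← Multiset.singleton_add, add_comm, hroots]
  congr 1
  simp only [Polynomial.roots_X_sub_C, Multiset.bind_singleton]
  rfl

end Pool.Agent.MP_8604ae_co
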