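import Mathlib
import Pool.Agent.MP_8604ae_co.Spec

/-!
# Components, zero eigenvalues and the largest eigenvalue
-/

namespace Pool.Agent.MP_8604ae_co

open Matrix Finset

variable {V : Type*} [Fintype V]

lemma count_zero (G : SimpleGraph V) :
    (ms G).count 0 = Nat.card G.ConnectedComponent := by
  classical
  rw [Nat.card_eq_fintype_card]
  have hH : (G.lapMatrix ℝ).IsHermitian := G.isHermitian_lapMatrix ℝ
  have h1 : Fintype.card G.ConnectedComponent
      = Module.finrank ℝ (LinearMap.ker (Matrix.toLin' (G.lapMatrix ℝ))) :=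
    G.card_connectedComponent_eq_finrank_ker_toLin'_lapMatrix
  have h2 := LinearMap.finrank_range_add_finrank_ker (Matrix.toLin' (G.lapMatrix ℝ))
  have h3 : Module.finrank ℝ (LinearMap.range (Matrix.toLin' (G.lapMatrix ℝ)))
      = (G.lapMatrix ℝ).rank := by
    rw [Matrix.rank, Matrix.toLin'_apply']
  rw [h3, hH.rank_eq_card_non_zero_eigs, ← h1, Module.finrank_fintype_fun_eq_card] at h2
  have h4 : ms G = Finset.univ.val.map hH.eigenvalues := by
    rw [ms_def, hH.roots_charpoly_eq_eigenvalues]
    rfl
  have h5 : (ms G).count 0 = Fintype.card {i // hH.eigenvalues i = 0} := by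
    rw [h4, Multiset.count_map, Fintype.card_subtype]
    rw [← Finset.filter_val, Finset.card_val]
    congr 1
    ext i
    simp [eq_comm]
  have h6 := Fintype.card_subtype_compl (fun i => hH.eigenvalues i = 0)
  have h7 : Fintype.card {i // ¬ hH.eigenvalues i = 0} = Fintype.card {i // hH.eigenvalues i ≠ 0} :=
    rfl
  have h8 : Fintype.card {i // hH.eigenvalues i = 0} ≤ Fintype.card V := Fintype.card_subtype_le _
  rw [h5]
  omega

open scoped Classical in
lemma comp_bound (G : SimpleGraph V) {t : ℝ} (ht : t ∈ ms G) :
    ∃ c : G.ConnectedComponent, t ≤ ((univ.filter (fun v => G.connectedComponentMk v = c)).card : ℝ) := by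
  obtain ⟨v, hv, hv'⟩ := exists_eigvec G ht
  have hne : Nonempty V := by
    obtain ⟨i, _⟩ := Function.ne_iff.1 hv
    exact ⟨i⟩
  let fib : G.ConnectedComponent → Finset V := fun c => univ.filter (fun v => G.connectedComponentMk v = c)
  obtain ⟨c, _, hc⟩ := (univ : Finset G.ConnectedComponent).exists_max_image (fun c => (fib c).card)
    ⟨G.connectedComponentMk hne.some, mem_univ _⟩
  refine ⟨c, ?_⟩
  have hq := quad G v
  rw [hv', dotProduct_smul, smul_eq_mul] at hq
  have hpos := dot_self_pos hv
  have h1 : (∑ i, ∑ j, if G.Adj i j then (v i - v j) ^ 2 else 0) ≤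
      ∑ c : G.ConnectedComponent, ∑ i ∈ fib c, ∑ j ∈ fib c, (v i - v j) ^ 2 := by
    rw [← Finset.sum_fiberwise (univ : Finset V) (fun i => G.connectedComponentMk i)]
    apply Finset.sum_le_sum
    intro c _
    apply Finset.sum_le_sum
    intro i hi
    rw [mem_filter] at hi
    rw [← Finset.sum_filter]
    apply Finset.sum_le_sum_of_subset_of_nonneg
    · intro j hj
      rw [mem_filter] at hj
      simp only [fib, mem_filter, mem_univ, true_and]
      rw [← hi.2]
      exact SimpleGraph.ConnectedComponent.sound (hj.2.symm.reachable)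
    · intro j _ _
      positivity
  have h2 : ∀ c : G.ConnectedComponent, ∑ i ∈ fib c, ∑ j ∈ fib c, (v i - v j) ^ 2 ≤
      2 * ((fib c).card : ℝ) * ∑ i ∈ fib c, v i * v i := by
    intro c
    have : ∑ i ∈ fib c, ∑ j ∈ fib c, (v i - v j) ^ 2 =
        2 * ((fib c).card : ℝ) * ∑ i ∈ fib c, v i * v i - 2 * (∑ i ∈ fib c, v i) ^ 2 := by
      have e : ∀ i j, (v i - v j) ^ 2 = v i * v i + v j * v j - 2 * (v i * v j) := by
        intro i j; ring
      simp only [e, Finset.sum_sub_distrib, Finset.sum_add_distrib, Finset.sum_const, nsmul_eq_mul,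
        ← Finset.mul_sum, ← Finset.sum_mul]
      ring
    rw [this]
    nlinarith [sq_nonneg (∑ i ∈ fib c, v i)]
  have h3 : ∑ c' : G.ConnectedComponent, ∑ i ∈ fib c', ∑ j ∈ fib c', (v i - v j) ^ 2 ≤
      2 * ((fib c).card : ℝ) * (v ⬝ᵥ v) := by
    calc _ ≤ ∑ c' : G.ConnectedComponent, 2 * ((fib c).card : ℝ) * ∑ i ∈ fib c', v i * v i := by
          apply Finset.sum_le_sum
          intro c' _
          refine (h2 c').trans ?_
          apply mul_le_mul_of_nonneg_right
          · have : ((fib c').card : ℝ) ≤ (fib c).card := by exact_mod_cast hc c' (mem_univ _)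
            linarith
          · exact Finset.sum_nonneg (fun i _ => mul_self_nonneg _)
      _ = 2 * ((fib c).card : ℝ) * (v ⬝ᵥ v) := by
          rw [← Finset.mul_sum]
          congr 1
          unfold dotProduct
          rw [← Finset.sum_fiberwise (univ : Finset V) (fun i => G.connectedComponentMk i)]
  have h4 : t * (v ⬝ᵥ v) ≤ ((fib c).card : ℝ) * (v ⬝ᵥ v) := by linarith
  exact le_of_mul_le_mul_right h4 hpos

/-- Structure of graphs with many components and large top eigenvalue. -/
lemma structure_lemma (G : SimpleGraph V) {k : ℕ}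
    (hcount : Fintype.card V ≤ (ms G).count 0 + k) {t : ℝ} (ht : t ∈ ms G) :
    t ≤ k + 1 ∧ ((t = k + 1) → ∃ C : Finset V, C.card = k + 1 ∧ ∀ u w, G.Adj u w → u ∈ C) := by
  classical
  obtain ⟨c, hc⟩ := comp_bound G ht
  set C := univ.filter (fun v => G.connectedComponentMk v = c) with hC
  rw [count_zero, Nat.card_eq_fintype_card] at hcount
  -- components other than `c` inject into the vertices outside `C`
  have hrep : ∀ d : G.ConnectedComponent, ∃ v, G.connectedComponentMk v = d := fun d =>
    Quot.exists_rep d
  choose r hr using hrep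
  have hcard : (univ.erase c : Finset G.ConnectedComponent).card ≤ (Cᶜ : Finset V).card := by
    apply Finset.card_le_card_of_injOn r
    · intro d hd
      simp only [coe_erase, coe_univ, Set.mem_sdiff, Set.mem_univ, Set.mem_singleton_iff,
        true_and] at hd
      simp only [coe_compl, Set.mem_compl_iff, mem_coe, hC, mem_filter, mem_univ, true_and, hr]
      exact hd
    · intro d _ d' _ hdd
      rw [← hr d, ← hr d', hdd]
  rw [Finset.card_erase_of_mem (mem_univ c), Finset.card_univ, Finset.card_compl] at hcard
  have hCle : C.card ≤ Fintype.card V := Finset.card_le_univ C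
  have hC1 : C.card ≤ k + 1 := by omega
  refine ⟨?_, ?_⟩
  · have : (C.card : ℝ) ≤ k + 1 := by exact_mod_cast hC1
    linarith
  · intro hteq
    have hC2 : k + 1 ≤ C.card := by
      have : ((k + 1 : ℕ) : ℝ) ≤ C.card := by push_cast; linarith
      exact_mod_cast this
    have hC3 : C.card = k + 1 := le_antisymm hC1 hC2
    refine ⟨C, hC3, ?_⟩
    intro u w huw
    by_contra hu
    -- the map r hits everything outside C
    have himg : (univ.erase c).image r = Cᶜ := by
      apply Finset.eq_of_subset_of_card_le
      · intro x hx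
        rw [mem_image] at hx
        obtain ⟨d, hd, rfl⟩ := hx
        rw [mem_erase] at hd
        simp only [hC, mem_compl, mem_filter, mem_univ, true_and, hr]
        exact hd.1
      · rw [Finset.card_image_of_injOn, Finset.card_erase_of_mem (mem_univ c), Finset.card_univ,
          Finset.card_compl]
        · omega
        · intro d _ d' _ hdd
          rw [← hr d, ← hr d', hdd]
    have hcomp : G.connectedComponentMk u = G.connectedComponentMk w :=
      SimpleGraph.ConnectedComponent.sound huw.reachable
    have hw : w ∉ C := by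
      intro hw
      apply hu
      simp only [hC, mem_filter, mem_univ, true_and] at hw ⊢
      rw [hcomp, hw]
    have hu' : u ∈ (univ.erase c).image r := by rw [himg]; simpa using hu
    have hw' : w ∈ (univ.erase c).image r := by rw [himg]; simpa using hw
    rw [mem_image] at hu' hw'
    obtain ⟨d, _, hd⟩ := hu'
    obtain ⟨d', _, hd'⟩ := hw'
    have : d = d' := by rw [← hr d, ← hr d', hd, hd', hcomp]
    rw [this, hd'] at hd
    exact huw.ne hd.symm

end Pool.Agent.MP_8604ae_co
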