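import Mathlib

/-!
# Polyhedral description of the convex hull of threshold spectra (sequence version)
-/

namespace Pool.Agent.MP_8604ae_co

open Finset

/-- Partial sums. -/
def S (f : ℕ → ℝ) (p : ℕ) : ℝ := ∑ i ∈ range p, f i

lemma S_zero (f : ℕ → ℝ) : S f 0 = 0 := by simp [S]

lemma S_succ (f : ℕ → ℝ) (p : ℕ) : S f (p + 1) = S f p + f p := by
  simp [S, sum_range_succ]

lemma S_add (f g : ℕ → ℝ) (p : ℕ) : S (f + g) p = S f p + S g p := by
  simp [S, sum_add_distrib]

lemma S_smul (c : ℝ) (f : ℕ → ℝ) (p : ℕ) : S (c • f) p = c * S f p := by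
  simp [S, mul_sum]

/-- The polytope in sequence form. -/
structure Qs (m : ℕ) (f : ℕ → ℝ) : Prop where
  anti : ∀ i, f (i + 1) ≤ f i
  zero : ∀ i, m ≤ i → f i = 0
  ineq : ∀ p q, 1 ≤ p → p ≤ q → q ≤ m → S f p + S f q ≤ S f m + p * (q + 1)

/-- Threshold vectors. -/
def Ts : ℕ → Set (ℕ → ℝ)
  | 0 => {0}
  | (m + 1) => Ts m ∪ {f | ∃ g ∈ Ts m,
      f = fun i => if i = 0 then (m : ℝ) + 2 else if i ≤ m then g (i - 1) + 1 else 0}

lemma Qs.antitone {m : ℕ} {f : ℕ → ℝ} (h : Qs m f) : Antitone f :=
  antitone_nat_of_succ_le h.anti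

lemma Qs.nonneg {m : ℕ} {f : ℕ → ℝ} (h : Qs m f) (i : ℕ) : 0 ≤ f i := by
  have := h.antitone (Nat.le_add_right i m)
  rw [h.zero (i + m) (by omega)] at this
  exact this

lemma Qs.le {m : ℕ} {f : ℕ → ℝ} (h : Qs m f) (i : ℕ) : f i ≤ m + 1 := by
  have h0 : f 0 ≤ m + 1 := by
    rcases Nat.eq_zero_or_pos m with hm | hm
    · subst hm
      rw [h.zero 0 le_rfl]
      simp
    · have := h.ineq 1 m le_rfl hm le_rfl
      rw [show S f 1 = f 0 by simp [S]] at this
      push_cast at this
      linarith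
  exact (h.antitone (Nat.zero_le i)).trans h0

/-- constant on the tail -/
lemma S_tail {m : ℕ} {f : ℕ → ℝ} (h : ∀ i, m ≤ i → f i = 0) (q : ℕ) (hq : m ≤ q) :
    S f q = S f m := by
  induction q, hq using Nat.le_induction with
  | base => rfl
  | succ k hk ih => rw [S_succ, ih, h k hk, add_zero]

lemma S_mono {f : ℕ → ℝ} (h : ∀ i, 0 ≤ f i) : Monotone (S f) :=
  monotone_nat_of_le_succ (fun p => by rw [S_succ]; linarith [h p])

lemma S_le_mul {f : ℕ → ℝ} {c : ℝ} (h : ∀ i, f i ≤ c) (p : ℕ) : S f p ≤ p * c := by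
  induction p with
  | zero => simp [S]
  | succ k ih => rw [S_succ]; push_cast; linarith [h k]

lemma Qs.succ {m : ℕ} {f : ℕ → ℝ} (h : Qs m f) : Qs (m + 1) f := by
  refine ⟨h.anti, fun i hi => h.zero i (by omega), ?_⟩
  intro p q hp hpq hq
  have hS : S f (m + 1) = S f m := S_tail h.zero _ (by omega)
  rcases Nat.lt_or_ge m q with hq' | hq'
  · have : q = m + 1 := by omega
    subst this
    have h1 := S_le_mul h.le p
    have : (0:ℝ) ≤ p := by positivity
    push_cast
    nlinarith
  · rw [hS]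
    exact h.ineq p q hp hpq hq'

/-- The domination map. -/
def dom (m : ℕ) (g : ℕ → ℝ) : ℕ → ℝ :=
  fun i => if i = 0 then (m : ℝ) + 2 else if i ≤ m then g (i - 1) + 1 else 0

lemma dom_zero (m : ℕ) (g : ℕ → ℝ) : dom m g 0 = m + 2 := by simp [dom]

lemma dom_succ (m : ℕ) (g : ℕ → ℝ) (i : ℕ) (hi : i < m) : dom m g (i + 1) = g i + 1 := by
  have : i + 1 ≤ m := hi
  simp [dom, this]

lemma dom_big (m : ℕ) (g : ℕ → ℝ) (i : ℕ) (hi : m + 1 ≤ i) : dom m g i = 0 := by
  have h0 : i ≠ 0 := by omega
  have h1 : ¬ i ≤ m := by omega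
  simp [dom, h0, h1]

lemma S_dom (m : ℕ) (g : ℕ → ℝ) (p : ℕ) (hp : p ≤ m) :
    S (dom m g) (p + 1) = (m + 2) + S g p + p := by
  induction p with
  | zero => simp [S, dom]
  | succ k ih =>
    rw [S_succ, ih (by omega), dom_succ m g k (by omega), S_succ]
    push_cast
    ring

lemma Qs.dom {m : ℕ} {g : ℕ → ℝ} (h : Qs m g) : Qs (m + 1) (dom m g) := by
  refine ⟨?_, fun i hi => dom_big m g i hi, ?_⟩
  · intro i
    rcases Nat.eq_zero_or_pos i with hi | hi
    · subst hi
      rw [dom_zero]
      rcases Nat.eq_zero_or_pos m with hm | hm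
      · subst hm
        rw [dom_big _ _ _ (by omega)]
        norm_num
      · rw [dom_succ m g 0 hm]
        linarith [h.le 0]
    · obtain ⟨j, rfl⟩ : ∃ j, i = j + 1 := ⟨i - 1, by omega⟩
      rcases Nat.lt_or_ge (j + 1) m with hj | hj
      · rw [dom_succ m g (j + 1) hj, dom_succ m g j (by omega)]
        linarith [h.anti j]
      · rw [dom_big m g (j + 1 + 1) (by omega)]
        rcases Nat.lt_or_ge j m with hj' | hj'
        · rw [dom_succ m g j hj']
          linarith [h.nonneg j]
        · rw [dom_big m g (j + 1) (by omega)]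
  · intro p q hp hpq hq
    obtain ⟨p', rfl⟩ : ∃ p', p = p' + 1 := ⟨p - 1, by omega⟩
    obtain ⟨q', rfl⟩ : ∃ q', q = q' + 1 := ⟨q - 1, by omega⟩
    rw [S_dom m g p' (by omega), S_dom m g q' (by omega), S_dom m g m le_rfl]
    push_cast
    rcases Nat.eq_zero_or_pos p' with hp' | hp'
    · subst hp'
      have := S_mono h.nonneg (show q' ≤ m by omega)
      rw [S_zero]
      push_cast
      linarith
    · have := h.ineq p' q' hp' (by omega) (by omega)
      nlinarith

lemma Ts_subset : ∀ m f, f ∈ Ts m → Qs m f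
  | 0, f, hf => by
    have : f = 0 := hf
    subst this
    exact ⟨fun i => le_rfl, fun i _ => rfl, fun p q hp hpq hq => by omega⟩
  | m + 1, f, hf => by
    rcases hf with hf | ⟨g, hg, rfl⟩
    · exact (Ts_subset m f hf).succ
    · exact (Ts_subset m g hg).dom

/-- Going back along the domination map. -/
lemma Qs.undom {m : ℕ} {f : ℕ → ℝ} (h : Qs (m + 1) f) (h0 : f 0 = m + 2) :
    ∃ g, Qs m g ∧ f = Pool.Agent.MP_8604ae_co.dom m g := by
  refine ⟨fun i => if i < m then f (i + 1) - 1 else 0, ?_, ?_⟩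
  · have hm1 : ∀ i, i < m → 1 ≤ f (i + 1) := by
      intro i hi
      have h1 : 1 ≤ f m := by
        have := h.ineq 1 m le_rfl (by omega) (by omega)
        rw [S_succ f m, show S f 1 = f 0 by simp [S], h0] at this
        push_cast at this
        linarith
      exact h1.trans (h.antitone (by omega))
    have hS : ∀ p, p ≤ m → S (fun i => if i < m then f (i + 1) - 1 else 0) p
        = S f (p + 1) - (m + 2) - p := by
      intro p hp
      induction p with
      | zero => simp [S, h0]
      | succ k ih =>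
        rw [S_succ, ih (by omega), S_succ f (k + 1)]
        have : k < m := by omega
        simp only [this, if_true]
        push_cast
        ring
    refine ⟨?_, ?_, ?_⟩
    · intro i
      by_cases h1 : i + 1 < m
      · have h2 : i < m := by omega
        simp only [h1, h2, if_true]
        linarith [h.anti (i + 1)]
      · by_cases h2 : i < m
        · simp only [h1, h2, if_true, if_false]
          linarith [hm1 i h2]
        · simp [h1, h2]
    · intro i hi
      have : ¬ i < m := by omega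
      simp [this]
    · intro p q hp hpq hq
      rw [hS p (by omega), hS q hq, hS m le_rfl]
      have := h.ineq (p + 1) (q + 1) (by omega) (by omega) (by omega)
      push_cast at this
      nlinarith
  · funext i
    rcases Nat.eq_zero_or_pos i with hi | hi
    · subst hi; rw [dom_zero, h0]
    · obtain ⟨j, rfl⟩ : ∃ j, i = j + 1 := ⟨i - 1, by omega⟩
      rcases Nat.lt_or_ge j m with hj | hj
      · rw [dom_succ m _ j hj]
        simp [hj]
      · rw [dom_big m _ (j + 1) (by omega), h.zero (j + 1) (by omega)]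

end Pool.Agent.MP_8604ae_co
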