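import Mathlib
import Pool.Agent.MP_8604ae_co.Poly

/-!
# Extreme points of the polytope `Qs m` are threshold vectors
-/

namespace Pool.Agent.MP_8604ae_co

open Finset

lemma exists_eps {ι : Type*} [DecidableEq ι] (s : Finset ι) (a b : ι → ℝ)
    (h : ∀ j ∈ s, a j ≤ 0) (h0 : ∀ j ∈ s, a j = 0 → b j = 0) :
    ∃ ε : ℝ, 0 < ε ∧ ∀ j ∈ s, a j + ε * |b j| ≤ 0 := by
  induction s using Finset.induction_on with
  | empty => exact ⟨1, one_pos, by simp⟩
  | insert j s hj ih =>
    obtain ⟨ε, hε, hs⟩ := ih (fun i hi => h i (mem_insert_of_mem hi))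
      (fun i hi => h0 i (mem_insert_of_mem hi))
    have hj0 := h j (mem_insert_self _ _)
    obtain ⟨δ, hδ, hd⟩ : ∃ δ : ℝ, 0 < δ ∧ a j + δ * |b j| ≤ 0 := by
      rcases hj0.lt_or_eq with hlt | heq
      · refine ⟨-a j / (|b j| + 1), div_pos (by linarith) (by positivity), ?_⟩
        have h1 : (0:ℝ) < |b j| + 1 := by positivity
        have h2 : -a j / (|b j| + 1) * |b j| ≤ -a j := by
          rw [div_mul_eq_mul_div, div_le_iff₀ h1]
          nlinarith [abs_nonneg (b j)]
        linarith
      · refine ⟨1, one_pos, ?_⟩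
        rw [heq, h0 j (mem_insert_self _ _) heq]
        simp
    refine ⟨min ε δ, lt_min hε hδ, ?_⟩
    intro i hi
    rcases mem_insert.1 hi with rfl | hi
    · have := mul_le_mul_of_nonneg_right (min_le_right ε δ) (abs_nonneg (b i))
      linarith
    · have := mul_le_mul_of_nonneg_right (min_le_left ε δ) (abs_nonneg (b i))
      linarith [hs i hi]


/-- A perturbation direction compatible with all tight constraints. -/
lemma perturb {m : ℕ} {x d : ℕ → ℝ} (hx : Qs m x)
    (d1 : ∀ i, m ≤ i → d i = 0)
    (d2 : ∀ i, i < m → x (i + 1) = x i → d (i + 1) = d i)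
    (d3 : ∀ p q, 1 ≤ p → p ≤ q → q ≤ m → S x p + S x q = S x m + p * (q + 1) →
      S d p + S d q - S d m = 0) :
    ∃ ε : ℝ, 0 < ε ∧ Qs m (x + ε • d) ∧ Qs m (x - ε • d) := by
  obtain ⟨ε1, hε1, h1⟩ := exists_eps (range m) (fun i => x (i + 1) - x i)
    (fun i => d (i + 1) - d i) (fun i _ => by linarith [hx.anti i])
    (fun i hi h => by rw [d2 i (mem_range.1 hi) (by linarith), sub_self])
  obtain ⟨ε2, hε2, h2⟩ := exists_eps
    (((range (m + 1)) ×ˢ (range (m + 1))).filter (fun z => 1 ≤ z.1 ∧ z.1 ≤ z.2))
    (fun z => S x z.1 + S x z.2 - S x m - z.1 * (z.2 + 1))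
    (fun z => S d z.1 + S d z.2 - S d m)
    (fun z hz => by
      simp only [mem_filter, mem_product, mem_range] at hz
      have := hx.ineq z.1 z.2 hz.2.1 hz.2.2 (by omega)
      linarith)
    (fun z hz h => by
      simp only [mem_filter, mem_product, mem_range] at hz
      exact d3 z.1 z.2 hz.2.1 hz.2.2 (by omega) (by linarith))
  have key : ∀ σ : ℝ, |σ| ≤ min ε1 ε2 → Qs m (x + σ • d) := by
    intro σ hσ
    have hσ1 : |σ| ≤ ε1 := hσ.trans (min_le_left _ _)
    have hσ2 : |σ| ≤ ε2 := hσ.trans (min_le_right _ _)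
    refine ⟨?_, ?_, ?_⟩
    · intro i
      simp only [Pi.add_apply, Pi.smul_apply, smul_eq_mul]
      rcases Nat.lt_or_ge i m with hi | hi
      · have h := h1 i (mem_range.2 hi)
        have h3 : σ * (d (i + 1) - d i) ≤ |σ| * |d (i + 1) - d i| := by
          rw [← abs_mul]; exact le_abs_self _
        have h4 := mul_le_mul_of_nonneg_right hσ1 (abs_nonneg (d (i + 1) - d i))
        nlinarith
      · rw [hx.zero i hi, hx.zero (i + 1) (by omega), d1 i hi, d1 (i + 1) (by omega)]
    · intro i hi
      simp [hx.zero i hi, d1 i hi]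
    · intro p q hp hpq hq
      rw [S_add, S_add, S_add, S_smul, S_smul, S_smul]
      have h := h2 (p, q) (by
        simp only [mem_filter, mem_product, mem_range]
        omega)
      have h3 : σ * (S d p + S d q - S d m) ≤ |σ| * |S d p + S d q - S d m| := by
        rw [← abs_mul]; exact le_abs_self _
      have h4 := mul_le_mul_of_nonneg_right hσ2 (abs_nonneg (S d p + S d q - S d m))
      simp only at h
      nlinarith
  refine ⟨min ε1 ε2, lt_min hε1 hε2, key _ ?_, ?_⟩
  · rw [abs_of_pos (lt_min hε1 hε2)]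
  · have := key (-(min ε1 ε2)) (by rw [abs_neg, abs_of_pos (lt_min hε1 hε2)])
    rw [neg_smul] at this
    exact this

/-- Tight pairs. -/
def Tight (m : ℕ) (x : ℕ → ℝ) (p q : ℕ) : Prop :=
  1 ≤ p ∧ p ≤ q ∧ q ≤ m ∧ S x p + S x q = S x m + p * (q + 1)

/-- values at a tight pair, left end -/
lemma Tight.left {m : ℕ} {x : ℕ → ℝ} (hx : Qs m x) {p q : ℕ} (h : Tight m x p q) :
    ∀ i, i < p → (q : ℝ) + 1 ≤ x i := by
  obtain ⟨hp, hpq, hq, ht⟩ := h
  obtain ⟨r, rfl⟩ : ∃ r, p = r + 1 := ⟨p - 1, by omega⟩
  have h1 : (q : ℝ) + 1 ≤ x r := by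
    rcases Nat.eq_zero_or_pos r with hr | hr
    · subst hr
      rw [S_succ, S_zero] at ht
      have := S_mono hx.nonneg hq
      push_cast at ht
      linarith
    · have := hx.ineq r q hr (by omega) hq
      rw [S_succ] at ht
      push_cast at ht
      linarith
  intro i hi
  exact h1.trans (hx.antitone (by omega))

/-- values at a tight pair, right end -/
lemma Tight.right {m : ℕ} {x : ℕ → ℝ} (hx : Qs m x) {p q : ℕ} (h : Tight m x p q) :
    ∀ i, q ≤ i → x i ≤ p := by
  obtain ⟨hp, hpq, hq, ht⟩ := h
  have h1 : x q ≤ p := by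
    rcases Nat.lt_or_ge q m with hq' | hq'
    · have := hx.ineq p (q + 1) hp (by omega) hq'
      rw [S_succ] at this
      push_cast at this
      linarith
    · rw [hx.zero q hq']
      positivity
  intro i hi
  exact (hx.antitone hi).trans h1

/-- values just inside a tight pair, left -/
lemma Tight.left' {m : ℕ} {x : ℕ → ℝ} (hx : Qs m x) {p q : ℕ} (h : Tight m x p q) :
    x p ≤ (q : ℝ) + 1 := by
  have hr := h.right hx
  obtain ⟨hp, hpq, hq, ht⟩ := h
  rcases Nat.lt_or_ge p q with hlt | hge
  · have := hx.ineq (p + 1) q (by omega) hlt hq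
    rw [S_succ] at this
    push_cast at this
    linarith
  · have : p = q := by omega
    subst this
    have := hr p le_rfl
    linarith

/-- values just inside a tight pair, right: `x (q-1) ≥ p`. -/
lemma Tight.right' {m : ℕ} {x : ℕ → ℝ} (hx : Qs m x) {p q : ℕ} (h : Tight m x p q) :
    (p : ℝ) ≤ x (q - 1) := by
  have hl := h.left hx
  obtain ⟨hp, hpq, hq, ht⟩ := h
  rcases Nat.lt_or_ge p q with hlt | hge
  · obtain ⟨r, rfl⟩ : ∃ r, q = r + 1 := ⟨q - 1, by omega⟩
    have := hx.ineq p r hp (by omega) (by omega)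
    rw [S_succ] at ht
    push_cast at ht
    have e : r + 1 - 1 = r := by omega
    rw [e]
    linarith
  · have : p = q := by omega
    subst this
    have := hl (p - 1) (by omega)
    linarith

/-- Uncrossing. -/
lemma uncross {m : ℕ} {x : ℕ → ℝ} (hx : Qs m x) {p q p' q' : ℕ} (h : Tight m x p q)
    (h' : Tight m x p' q') (hp : p < p') (hq : q < q') : False := by
  rcases Nat.lt_or_ge q p' with h1 | h1
  · have a := h.right hx (p' - 1) (by omega)
    have b := h'.left hx (p' - 1) (by omega)
    have c : (p : ℝ) ≤ q' := by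
      have : p ≤ q' := by have := h'.2.1; omega
      exact_mod_cast this
    linarith
  · obtain ⟨_, _, hqm, ht⟩ := h
    obtain ⟨_, _, hqm', ht'⟩ := h'
    have a := hx.ineq p q' (by omega) (by omega) hqm'
    have b := hx.ineq p' q (by omega) h1 hqm
    have c : (p : ℝ) + 1 ≤ p' := by exact_mod_cast hp
    have d : (q : ℝ) + 1 ≤ q' := by exact_mod_cast hq
    nlinarith

/-- An outermost tight pair. -/
lemma exists_outer {m : ℕ} {x : ℕ → ℝ} (hx : Qs m x) (h : ∃ p q, Tight m x p q) :
    ∃ p q, Tight m x p q ∧ ∀ p' q', Tight m x p' q' → p ≤ p' ∧ q' ≤ q := by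
  classical
  have hne : ∃ p, ∃ q, Tight m x p q := h
  let p := Nat.find hne
  have hp : ∃ q, Tight m x p q := Nat.find_spec hne
  have hmin : ∀ p' q', Tight m x p' q' → p ≤ p' := fun p' q' h' => Nat.find_min' hne ⟨q', h'⟩
  let s := (range (m + 1)).filter (fun q => Tight m x p q)
  have hs : s.Nonempty := by
    obtain ⟨q, hq⟩ := hp
    exact ⟨q, by simp only [s, mem_filter, mem_range]; exact ⟨by have := hq.2.2.1; omega, hq⟩⟩
  obtain ⟨q, hq, hmax⟩ := s.exists_max_image id hs
  simp only [s, mem_filter, mem_range] at hq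
  refine ⟨p, q, hq.2, fun p' q' h' => ⟨hmin p' q' h', ?_⟩⟩
  by_contra hcon
  push Not at hcon
  rcases (hmin p' q' h').lt_or_eq with h1 | h1
  · exact uncross hx hq.2 h' h1 hcon
  · have : q' ∈ s := by
      simp only [s, mem_filter, mem_range]
      exact ⟨by have := h'.2.2.1; omega, by rw [h1]; exact h'⟩
    have := hmax q' this
    simp only [id] at this
    omega

/-- Sums of the perturbation. -/
lemma S_two (I K : Finset ℕ) (a b : ℝ) (r : ℕ) :
    S (fun i => (if i ∈ I then a else 0) + (if i ∈ K then b else 0)) r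
      = a * ((range r ∩ I).card : ℝ) + b * ((range r ∩ K).card : ℝ) := by
  unfold S
  rw [sum_add_distrib, sum_ite_mem, sum_ite_mem]
  simp [mul_comm]

/-- Claim X. -/
lemma exists_direction {m : ℕ} {x : ℕ → ℝ} (hx : Qs m x) (hm : 1 ≤ m)
    (hlt : x 0 < m + 1) (hpos : 0 < x (m - 1)) :
    ∃ d : ℕ → ℝ, d ≠ 0 ∧ ∃ ε : ℝ, 0 < ε ∧ Qs m (x + ε • d) ∧ Qs m (x - ε • d) := by
  classical
  have hposi : ∀ i, i < m → 0 < x i := fun i hi => hpos.trans_le (hx.antitone (by omega))
  have hlti : ∀ i, x i < m + 1 := fun i => (hx.antitone (Nat.zero_le i)).trans_lt hlt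
  have hend : ∀ i, i + 1 = m → x (i + 1) ≠ x i := by
    intro i hi
    rw [hx.zero (i + 1) (by omega)]
    exact (hposi i (by omega)).ne
  by_cases hex : ∃ p q, Tight m x p q
  · obtain ⟨p, q, ht, hout⟩ := exists_outer hx hex
    have hl := ht.left hx
    have hr := ht.right hx
    have hl' := ht.left' hx
    have hr' := ht.right' hx
    obtain ⟨hp, hpq, hq, hteq⟩ := id ht
    let I := (range p).filter (fun i => (q:ℝ) + 1 < x i)
    let K := (Finset.Ico q m).filter (fun k => x k < p)
    have hI : ∀ i, i ∈ I ↔ i < p ∧ (q:ℝ) + 1 < x i := by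
      intro i; simp only [I, mem_filter, mem_range]
    have hK : ∀ k, k ∈ K ↔ (q ≤ k ∧ k < m) ∧ x k < p := by
      intro k; simp only [K, mem_filter, mem_Ico]
    have hInt : S x p < p * (m + 1) := by
      have hS : S x p ≤ p * x 0 := S_le_mul (fun i => hx.antitone (Nat.zero_le i)) p
      have : (0:ℝ) < p := by exact_mod_cast hp
      nlinarith
    have hIne : I.Nonempty := by
      by_contra hcon
      rw [not_nonempty_iff_eq_empty] at hcon
      have h1 : ∀ i, i < p → x i ≤ (q:ℝ) + 1 := by
        intro i hi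
        by_contra h2
        push Not at h2
        have : i ∈ I := (hI i).2 ⟨hi, h2⟩
        rw [hcon] at this
        simp at this
      have h2 : S x p ≤ p * ((q:ℝ) + 1) := by
        unfold S
        calc ∑ i ∈ range p, x i ≤ ∑ _i ∈ range p, ((q:ℝ) + 1) :=
              sum_le_sum (fun i hi => h1 i (mem_range.1 hi))
          _ = p * ((q:ℝ) + 1) := by simp; ring
      have h3 : S x m ≤ S x q := by linarith
      rcases Nat.lt_or_ge q m with hqm | hqm
      · have h4 : S x (q + 1) ≤ S x m := S_mono hx.nonneg hqm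
        rw [S_succ] at h4
        linarith [hposi q hqm]
      · have : q = m := by omega
        subst this
        linarith
    have hKne : K.Nonempty := by
      by_contra hcon
      rw [not_nonempty_iff_eq_empty] at hcon
      have h1 : ∀ k, q ≤ k → k < m → (p:ℝ) ≤ x k := by
        intro k hk hk'
        by_contra h2
        push Not at h2
        have : k ∈ K := (hK k).2 ⟨⟨hk, hk'⟩, h2⟩
        rw [hcon] at this
        simp at this
      have h2 : (p:ℝ) * (m - q) ≤ S x m - S x q := by
        have : S x m = S x q + ∑ k ∈ Finset.Ico q m, x k := by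
          unfold S
          rw [sum_range_add_sum_Ico _ hq]
        rw [this, add_sub_cancel_left]
        calc (p:ℝ) * (m - q) = ∑ _k ∈ Finset.Ico q m, (p:ℝ) := by
              rw [sum_const, Nat.card_Ico, nsmul_eq_mul, Nat.cast_sub hq]; ring
          _ ≤ ∑ k ∈ Finset.Ico q m, x k :=
              sum_le_sum (fun k hk => h1 k (mem_Ico.1 hk).1 (mem_Ico.1 hk).2)
      nlinarith
    let d : ℕ → ℝ := fun i => (if i ∈ I then (K.card : ℝ) else 0) + (if i ∈ K then (I.card:ℝ) else 0)
    have hIK : ∀ i, i ∈ I → i ∉ K := by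
      intro i hi hk
      have := (hI i).1 hi
      have := (hK i).1 hk
      omega
    refine ⟨d, ?_, ?_⟩
    · intro h0
      obtain ⟨i, hi⟩ := hIne
      have h1 : d i = 0 := by rw [h0]; rfl
      simp only [d, hi, hIK i hi, if_true, if_false, add_zero] at h1
      have : K.card ≠ 0 := (card_pos.2 hKne).ne'
      exact this (by exact_mod_cast h1)
    · apply perturb hx
      · intro i hi
        have h1 : i ∉ I := fun h => by have := (hI i).1 h; omega
        have h2 : i ∉ K := fun h => by have := (hK i).1 h; omega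
        simp [d, h1, h2]
      · intro i hi hxe
        have hi' : i + 1 < m := by
          rcases Nat.lt_or_ge (i + 1) m with h | h
          · exact h
          · exact absurd hxe (hend i (by omega))
        have e1 : (i + 1 ∈ I) ↔ (i ∈ I) := by
          rw [hI, hI, hxe]
          constructor
          · rintro ⟨h1, h2⟩; exact ⟨by omega, h2⟩
          · rintro ⟨h1, h2⟩
            refine ⟨?_, h2⟩
            by_contra h3
            have : i + 1 = p := by omega
            rw [← hxe, this] at h2
            linarith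
        have e2 : (i + 1 ∈ K) ↔ (i ∈ K) := by
          rw [hK, hK, hxe]
          constructor
          · rintro ⟨⟨h1, h2⟩, h3⟩
            refine ⟨⟨?_, hi⟩, h3⟩
            by_contra h4
            have : i = q - 1 := by omega
            rw [this] at h3
            linarith
          · rintro ⟨⟨h1, h2⟩, h3⟩; exact ⟨⟨by omega, hi'⟩, h3⟩
        simp only [d, e1, e2]
      · intro p' q' h1 h2 h3 h4
        obtain ⟨hpp, hqq⟩ := hout p' q' ⟨h1, h2, h3, h4⟩
        simp only [d]
        rw [S_two, S_two, S_two]
        have a1 : ∀ r, p ≤ r → range r ∩ I = I := by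
          intro r hr
          apply inter_eq_right.2
          intro i hi
          have := (hI i).1 hi
          exact mem_range.2 (by omega)
        have a2 : ∀ r, r ≤ q → range r ∩ K = ∅ := by
          intro r hr
          ext i
          simp only [mem_inter, mem_range, notMem_empty, iff_false, not_and]
          intro hi hk
          have := (hK i).1 hk
          omega
        have a3 : range m ∩ K = K := by
          apply inter_eq_right.2
          intro i hi
          have := (hK i).1 hi
          exact mem_range.2 (by omega)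
        rw [a1 p' hpp, a1 q' (by omega), a1 m (by omega), a2 p' (by omega), a2 q' hqq, a3]
        simp
        ring
  · refine ⟨fun i => if i < m then 1 else 0, ?_, ?_⟩
    · intro h0
      have := congrFun h0 0
      have h1 : 0 < m := hm
      simp [h1] at this
    · apply perturb hx
      · intro i hi
        have : ¬ i < m := by omega
        simp [this]
      · intro i hi hxe
        have hi' : i + 1 < m := by
          rcases Nat.lt_or_ge (i + 1) m with h | h
          · exact h
          · exact absurd hxe (hend i (by omega))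
        simp [hi, hi']
      · intro p q h1 h2 h3 h4
        exact absurd ⟨p, q, h1, h2, h3, h4⟩ hex

end Pool.Agent.MP_8604ae_co
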