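import Mathlib
import Pool.Agent.MP_8604ae_co.Extreme

/-!
# `Qs m` is the convex hull of the threshold vectors
-/

namespace Pool.Agent.MP_8604ae_co

open Finset

/-- The polytope as a set. -/
def QS (m : ℕ) : Set (ℕ → ℝ) := {f | Qs m f}

lemma mem_QS {m : ℕ} {f : ℕ → ℝ} : f ∈ QS m ↔ Qs m f := Iff.rfl

lemma QS_convex (m : ℕ) : Convex ℝ (QS m) := by
  intro f hf g hg a b ha hb hab
  rw [mem_QS] at *
  refine ⟨?_, ?_, ?_⟩
  · intro i
    simp only [Pi.add_apply, Pi.smul_apply, smul_eq_mul]
    nlinarith [mul_le_mul_of_nonneg_left (hf.anti i) ha, mul_le_mul_of_nonneg_left (hg.anti i) hb]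
  · intro i hi
    simp [hf.zero i hi, hg.zero i hi]
  · intro p q hp hpq hq
    simp only [S_add, S_smul]
    have h1 := mul_le_mul_of_nonneg_left (hf.ineq p q hp hpq hq) ha
    have h2 := mul_le_mul_of_nonneg_left (hg.ineq p q hp hpq hq) hb
    have h3 : (p:ℝ) * (q + 1) = a * (p * (q + 1)) + b * (p * (q + 1)) := by
      rw [← add_mul, hab, one_mul]
    linarith

lemma continuous_S (p : ℕ) : Continuous (fun f : ℕ → ℝ => S f p) := by
  unfold S
  exact continuous_finset_sum _ (fun i _ => continuous_apply i)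

lemma QS_closed (m : ℕ) : IsClosed (QS m) := by
  have : QS m = (⋂ i, {f : ℕ → ℝ | f (i + 1) ≤ f i}) ∩
      ((⋂ i, ⋂ (_ : m ≤ i), {f : ℕ → ℝ | f i = 0}) ∩
      (⋂ p : ℕ, ⋂ q : ℕ, ⋂ (_ : 1 ≤ p), ⋂ (_ : p ≤ q), ⋂ (_ : q ≤ m),
        {f : ℕ → ℝ | S f p + S f q ≤ S f m + p * (q + 1)})) := by
    ext f
    simp only [mem_QS, Set.mem_inter_iff, Set.mem_iInter, Set.mem_setOf_eq]
    constructor
    · rintro ⟨h1, h2, h3⟩
      exact ⟨h1, h2, h3⟩
    · rintro ⟨h1, h2, h3⟩
      exact ⟨h1, h2, h3⟩
  rw [this]
  refine IsClosed.inter ?_ (IsClosed.inter ?_ ?_)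
  · exact isClosed_iInter (fun i => isClosed_le (continuous_apply _) (continuous_apply _))
  · exact isClosed_iInter (fun i => isClosed_iInter (fun _ =>
      isClosed_eq (continuous_apply _) continuous_const))
  · refine isClosed_iInter (fun p => isClosed_iInter (fun q => isClosed_iInter (fun _ =>
      isClosed_iInter (fun _ => isClosed_iInter (fun _ => ?_)))))
    exact isClosed_le ((continuous_S p).add (continuous_S q))
      ((continuous_S m).add continuous_const)

lemma QS_compact (m : ℕ) : IsCompact (QS m) := by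
  have h1 : IsCompact (Set.univ.pi (fun _ : ℕ => Set.Icc (0:ℝ) (m + 1))) :=
    isCompact_univ_pi (fun _ => isCompact_Icc)
  refine h1.of_isClosed_subset (QS_closed m) ?_
  intro f hf i _
  exact ⟨Qs.nonneg hf i, Qs.le hf i⟩

lemma Ts_finite : ∀ m, (Ts m).Finite
  | 0 => Set.finite_singleton _
  | m + 1 => by
    refine (Ts_finite m).union ?_
    refine ((Ts_finite m).image (dom m)).subset ?_
    rintro f ⟨g, hg, rfl⟩
    exact ⟨g, hg, rfl⟩

lemma dom_mem_Ts {m : ℕ} {g : ℕ → ℝ} (hg : g ∈ Ts m) : dom m g ∈ Ts (m + 1) :=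
  Or.inr ⟨g, hg, rfl⟩

/-- `dom` is affine. -/
lemma dom_combo (m : ℕ) (g h : ℕ → ℝ) (a b : ℝ) (hab : a + b = 1) :
    dom m (a • g + b • h) = a • dom m g + b • dom m h := by
  funext i
  simp only [dom, Pi.add_apply, Pi.smul_apply, smul_eq_mul]
  split_ifs
  · linear_combination (-(m:ℝ) - 2) * hab
  · linear_combination (-1 : ℝ) * hab
  · ring

lemma dom_inj {m : ℕ} {g h : ℕ → ℝ} (hg : Qs m g) (hh : Qs m h) (he : dom m g = dom m h) :
    g = h := by
  funext i
  rcases Nat.lt_or_ge i m with hi | hi
  · have := congrFun he (i + 1)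
    rw [dom_succ m g i hi, dom_succ m h i hi] at this
    linarith
  · rw [hg.zero i hi, hh.zero i hi]

lemma extreme_subset : ∀ m, (QS m).extremePoints ℝ ⊆ Ts m
  | 0, f, hf => by
    have h := hf.1
    rw [mem_QS] at h
    change f = 0
    funext i
    exact h.zero i (Nat.zero_le i)
  | m + 1, f, hf => by
    have h : Qs (m + 1) f := hf.1
    by_cases h0 : f 0 = m + 2
    · obtain ⟨g, hg, rfl⟩ := h.undom h0
      refine dom_mem_Ts (extreme_subset m ?_)
      rw [mem_extremePoints] at hf ⊢
      refine ⟨hg, ?_⟩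
      intro g1 hg1 g2 hg2 hseg
      obtain ⟨a, b, ha, hb, hab, hgab⟩ := hseg
      have := hf.2 (dom m g1) (Qs.dom hg1) (dom m g2) (Qs.dom hg2)
        ⟨a, b, ha, hb, hab, by rw [← dom_combo m g1 g2 a b hab, hgab]⟩
      exact ⟨dom_inj hg1 hg this.1, dom_inj hg2 hg this.2⟩
    · by_cases h1 : f m = 0
      · left
        apply extreme_subset m
        have hfm : Qs m f := by
          refine ⟨h.anti, ?_, ?_⟩
          · intro i hi
            rcases Nat.lt_or_ge m i with h2 | h2
            · exact h.zero i h2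
            · have : i = m := by omega
              rw [this, h1]
          · intro p q hp hpq hq
            have := h.ineq p q hp hpq (by omega)
            rw [S_succ, h1, add_zero] at this
            exact this
        have hsub : QS m ⊆ QS (m + 1) := fun g hg => Qs.succ hg
        exact inter_extremePoints_subset_extremePoints_of_subset hsub ⟨hfm, hf⟩
      · exfalso
        have hlt : f 0 < ((m + 1 : ℕ) : ℝ) + 1 := by
          refine lt_of_le_of_ne (h.le 0) ?_
          push_cast
          intro h2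
          exact h0 (by linarith)
        have hpos : 0 < f (m + 1 - 1) := by
          have e : m + 1 - 1 = m := by omega
          rw [e]
          exact lt_of_le_of_ne (h.nonneg m) (Ne.symm h1)
        obtain ⟨d, hd, ε, hε, hp, hn⟩ := exists_direction h (by omega) hlt hpos
        rw [mem_extremePoints] at hf
        have := (hf.2 (f + ε • d) hp (f - ε • d) hn
          ⟨1/2, 1/2, by norm_num, by norm_num, by norm_num, by
            funext i
            simp only [Pi.add_apply, Pi.sub_apply, Pi.smul_apply, smul_eq_mul]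
            ring⟩).1
        apply hd
        have h3 : ε • d = 0 := by
          have h4 : f + ε • d = f + 0 := by rw [this, add_zero]
          exact add_left_cancel h4
        rcases smul_eq_zero.1 h3 with h5 | h5
        · exact absurd h5 hε.ne'
        · exact h5

theorem QS_eq_convexHull (m : ℕ) : QS m = convexHull ℝ (Ts m) := by
  apply Set.Subset.antisymm
  · have h1 := closure_convexHull_extremePoints (QS_compact m) (QS_convex m)
    rw [← h1]
    have h2 : IsClosed (convexHull ℝ (Ts m)) := (Ts_finite m).isClosed_convexHull ℝ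
    exact closure_minimal (convexHull_mono (extreme_subset m)) h2
  · exact convexHull_min (fun f hf => Ts_subset m f hf) (QS_convex m)

end Pool.Agent.MP_8604ae_co
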