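import Mathlib
import Pool.Agent.MP_8604ae_co.Comp
import Pool.Agent.MP_8604ae_co.Hull

/-!
# Sorted spectra as sequences
-/

namespace Pool.Agent.MP_8604ae_co

open Finset

/-- Sorted Laplacian spectra of graphs on `m + 1` vertices, extended by zero. -/
structure IsSp (m : ℕ) (f : ℕ → ℝ) (G : SimpleGraph (Fin (m + 1))) : Prop where
  anti : Antitone f
  zero : ∀ i, m ≤ i → f i = 0
  eq : ms G = (Multiset.range (m + 1)).map f

/-- The set of all spectra. -/
def Sp (m : ℕ) : Set (ℕ → ℝ) := {f | ∃ G, IsSp m f G}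

lemma IsSp.mem {m : ℕ} {f : ℕ → ℝ} {G : SimpleGraph (Fin (m + 1))} (h : IsSp m f G) {i : ℕ}
    (hi : i ≤ m) : f i ∈ ms G := by
  rw [h.eq, Multiset.mem_map]
  exact ⟨i, Multiset.mem_range.2 (by omega), rfl⟩

lemma IsSp.nonneg {m : ℕ} {f : ℕ → ℝ} {G : SimpleGraph (Fin (m + 1))} (h : IsSp m f G) (i : ℕ) :
    0 ≤ f i := by
  rcases Nat.lt_or_ge m i with hi | hi
  · rw [h.zero i hi.le]
  · exact ms_nonneg G (h.mem hi)

lemma ms_le {V : Type*} [Fintype V] (G : SimpleGraph V) {t : ℝ} (ht : t ∈ ms G) :
    t ≤ Fintype.card V := by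
  classical
  obtain ⟨c, hc⟩ := comp_bound G ht
  refine hc.trans ?_
  exact_mod_cast Finset.card_le_univ _

lemma IsSp.le {m : ℕ} {f : ℕ → ℝ} {G : SimpleGraph (Fin (m + 1))} (h : IsSp m f G) (i : ℕ) :
    f i ≤ m + 1 := by
  rcases Nat.lt_or_ge m i with hi | hi
  · rw [h.zero i hi.le]; positivity
  · have := ms_le G (h.mem hi)
    rw [Fintype.card_fin] at this
    exact_mod_cast this

/-- The last eigenvalue of a sorted list is zero. -/
lemma last_zero {m : ℕ} {f : ℕ → ℝ} {G : SimpleGraph (Fin (m + 1))} (ha : Antitone f)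
    (he : ms G = (Multiset.range (m + 1)).map f) : f m = 0 := by
  classical
  have h0 : (0:ℝ) ∈ ms G := by
    rw [← Multiset.count_pos, count_zero, Nat.card_eq_fintype_card]
    exact Fintype.card_pos_iff.2 ⟨G.connectedComponentMk 0⟩
  rw [he, Multiset.mem_map] at h0
  obtain ⟨i, hi, hi0⟩ := h0
  rw [Multiset.mem_range] at hi
  have h1 : f m ≤ 0 := by rw [← hi0]; exact ha (by omega)
  have h2 : f m ∈ ms G := by
    rw [he, Multiset.mem_map]
    exact ⟨m, Multiset.mem_range.2 (by omega), rfl⟩
  exact le_antisymm h1 (ms_nonneg G h2)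

/-- Every graph has a sorted spectrum. -/
lemma exists_isSp {m : ℕ} (G : SimpleGraph (Fin (m + 1))) : ∃ f, IsSp m f G := by
  classical
  let hH := G.isHermitian_lapMatrix ℝ
  have hc : Fintype.card (Fin (m + 1)) = m + 1 := Fintype.card_fin _
  let f : ℕ → ℝ := fun i => if h : i < m + 1 then hH.eigenvalues₀ ⟨i, by rw [hc]; exact h⟩ else 0
  have hms : ms G = Finset.univ.val.map hH.eigenvalues₀ := by
    rw [ms_def, hH.roots_charpoly_eq_eigenvalues₀]
    rfl
  have heq : ms G = (Multiset.range (m + 1)).map f := by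
    rw [hms]
    have h1 : (Finset.univ.val.map hH.eigenvalues₀) =
        (Finset.univ : Finset (Fin (m + 1))).val.map (fun i : Fin (m + 1) => f (i : ℕ)) := by
      have h2 : (fun i : Fin (m + 1) => f (i : ℕ)) = hH.eigenvalues₀ ∘ (Fin.cast hc.symm) := by
        funext i
        simp only [f, i.2, dif_pos, Function.comp]
        rfl
      rw [h2, ← Multiset.map_map]
      congr 1
      have h3 := Finset.univ_map_equiv_to_embedding (finCongr hc.symm)
      rw [← h3]
      rfl
    rw [h1]
    have h5 : (Finset.univ : Finset (Fin (m + 1))).val.map (fun i : Fin (m + 1) => f (i : ℕ)) =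
        ((Finset.univ : Finset (Fin (m + 1))).val.map (fun i : Fin (m + 1) => (i : ℕ))).map f := by
      rw [Multiset.map_map]
      rfl
    rw [h5]
    congr 1
    have := Fin.map_valEmbedding_univ (n := m + 1)
    have h4 := congrArg Finset.val this
    rw [Finset.map_val, Nat.Iio_eq_range] at h4
    exact h4
  have hnn : ∀ i, i < m + 1 → 0 ≤ f i := by
    intro i hi
    apply ms_nonneg G
    rw [heq, Multiset.mem_map]
    exact ⟨i, Multiset.mem_range.2 hi, rfl⟩
  have hanti : Antitone f := by
    intro i j hij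
    by_cases hj : j < m + 1
    · have hi : i < m + 1 := by omega
      simp only [f, hi, hj, dif_pos]
      exact hH.eigenvalues₀_antitone hij
    · have : f j = 0 := by simp only [f, hj, dif_neg, not_false_eq_true]
      rw [this]
      by_cases hi : i < m + 1
      · exact hnn i hi
      · have : f i = 0 := by simp only [f, hi, dif_neg, not_false_eq_true]
        rw [this]
  refine ⟨f, hanti, ?_, heq⟩
  intro i hi
  rcases hi.eq_or_lt with h | h
  · rw [← h]
    exact last_zero hanti heq
  · have : ¬ i < m + 1 := by omega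
    simp only [f, this, dif_neg, not_false_eq_true]

/-- Sorted spectra are unique. -/
lemma isSp_unique {m : ℕ} {f g : ℕ → ℝ} {G : SimpleGraph (Fin (m + 1))} (hf : IsSp m f G)
    (hg : IsSp m g G) : f = g := by
  have h : (Multiset.range (m + 1)).map f = (Multiset.range (m + 1)).map g := by
    rw [← hf.eq, hg.eq]
  have hl : ((List.range (m + 1)).map f).Perm ((List.range (m + 1)).map g) := by
    rw [← Multiset.coe_eq_coe]
    exact h
  have hs : ∀ k : ℕ → ℝ, Antitone k → ((List.range (m + 1)).map k).Pairwise (· ≥ ·) := by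
    intro k hk
    rw [List.pairwise_map]
    exact List.pairwise_lt_range.imp (fun {a b} hab => hk hab.le)
  have heq := hl.eq_of_pairwise' (hs f hf.anti) (hs g hg.anti)
  funext i
  rcases Nat.lt_or_ge i (m + 1) with hi | hi
  · have h1 := congrArg (fun l => l[i]?) heq
    simp [hi] at h1
    exact h1
  · rw [hf.zero i (by omega), hg.zero i (by omega)]

end Pool.Agent.MP_8604ae_co
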