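import Mathlib
import Pool.Agent.MP_8604ae_co.Seq

/-!
# Complement, isolated vertices and threshold graphs on sorted spectra
-/

namespace Pool.Agent.MP_8604ae_co

open Finset

/-- Reversal under complement. -/
def R (m : ℕ) (f : ℕ → ℝ) : ℕ → ℝ := fun i => if i < m then (m + 1 : ℝ) - f (m - 1 - i) else 0

lemma map_reflect (m : ℕ) (g : ℕ → ℝ) :
    (Multiset.range m).map (fun i => g (m - 1 - i)) = (Multiset.range m).map g := by
  have h1 : (Multiset.range m).map (fun i => g (m - 1 - i)) =
      ((Multiset.range m).map (fun i => m - 1 - i)).map g := by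
    rw [Multiset.map_map]; rfl
  rw [h1]
  congr 1
  have hnd : ((Multiset.range m).map (fun i => m - 1 - i)).Nodup := by
    refine (Multiset.nodup_range m).map_on ?_
    intro a ha b hb hab
    rw [Multiset.mem_range] at ha hb
    omega
  rw [Multiset.Nodup.ext hnd (Multiset.nodup_range m)]
  intro a
  rw [Multiset.mem_map, Multiset.mem_range]
  constructor
  · rintro ⟨b, hb, rfl⟩
    rw [Multiset.mem_range] at hb
    omega
  · intro ha
    exact ⟨m - 1 - a, Multiset.mem_range.2 (by omega), by omega⟩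

lemma isSp_R {m : ℕ} {f : ℕ → ℝ} {G : SimpleGraph (Fin (m + 1))} (h : IsSp m f G) :
    IsSp m (R m f) Gᶜ := by
  have hrange : Multiset.range (m + 1) = m ::ₘ Multiset.range m := Multiset.range_succ m
  refine ⟨?_, ?_, ?_⟩
  · intro i j hij
    simp only [R]
    by_cases hj : j < m
    · have hi : i < m := by omega
      simp only [hi, hj, if_true]
      have := h.anti (show m - 1 - j ≤ m - 1 - i by omega)
      linarith
    · simp only [hj, if_false]
      split_ifs with hi
      · linarith [h.le (m - 1 - i)]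
      · exact le_rfl
  · intro i hi
    have : ¬ i < m := by omega
    simp [R, this]
  · have hc := ms_compl G
    rw [h.eq, hrange, Multiset.map_cons, Multiset.map_cons, h.zero m le_rfl, Fintype.card_fin,
      sub_zero, Multiset.cons_swap, Multiset.cons_inj_right] at hc
    rw [hc, hrange, Multiset.map_cons]
    have h1 : R m f m = 0 := by simp [R]
    rw [h1, Multiset.map_map]
    congr 1
    rw [← map_reflect m]
    apply Multiset.map_congr rfl
    intro i hi
    rw [Multiset.mem_range] at hi
    simp [R, hi]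

lemma R_R {m : ℕ} {f : ℕ → ℝ} (h : ∀ i, m ≤ i → f i = 0) : R m (R m f) = f := by
  funext i
  simp only [R]
  by_cases hi : i < m
  · have h1 : m - 1 - i < m := by omega
    have h2 : m - 1 - (m - 1 - i) = i := by omega
    simp only [hi, h1, h2, if_true]
    ring
  · simp only [hi, if_false]
    exact (h i (by omega)).symm

/-- Add an isolated vertex at the end. -/
def addIso {n : ℕ} (H : SimpleGraph (Fin n)) : SimpleGraph (Fin (n + 1)) :=
  H.map (Fin.castSuccEmb)

lemma addIso_adj {n : ℕ} (H : SimpleGraph (Fin n)) (i j : Fin n) :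
    (addIso H).Adj i.castSucc j.castSucc ↔ H.Adj i j := by
  unfold addIso
  exact SimpleGraph.map_adj_apply (f := Fin.castSuccEmb)

lemma ms_addIso {n : ℕ} (H : SimpleGraph (Fin n)) : ms (addIso H) = 0 ::ₘ ms H := by
  classical
  let C : Set (Fin (n + 1)) := Set.range Fin.castSucc
  have hC : ∀ u w, (addIso H).Adj u w → u ∈ C := by
    intro u w huw
    unfold addIso at huw
    rw [SimpleGraph.map_adj] at huw
    obtain ⟨a, b, _, rfl, _⟩ := huw
    exact ⟨a, rfl⟩
  rw [ms_block (addIso H) C hC]
  have e : H ≃g (addIso H).induce C :=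
    { toEquiv := Equiv.ofInjective Fin.castSucc (Fin.castSucc_injective n)
      map_rel_iff' := by
        intro a b
        exact addIso_adj H a b }
  rw [← ms_iso e]
  have hcard : Fintype.card (Cᶜ : Set (Fin (n + 1))) = 1 := by
    have h1 : (Cᶜ : Set (Fin (n + 1))) = {Fin.last n} := by
      ext x
      simp only [C, Set.mem_compl_iff, Set.mem_range, Set.mem_singleton_iff]
      constructor
      · intro hx
        by_contra hne
        exact hx ⟨x.castPred hne, Fin.castSucc_castPred x hne⟩
      · rintro rfl ⟨y, hy⟩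
        exact (Fin.castSucc_lt_last y).ne hy
    rw [Fintype.card_congr (Equiv.setCongr h1)]
    simp
  rw [hcard, Multiset.replicate_one, add_comm, Multiset.singleton_add]

lemma isSp_addIso {m : ℕ} {f : ℕ → ℝ} {G : SimpleGraph (Fin (m + 1))} (h : IsSp m f G) :
    IsSp (m + 1) f (addIso G) := by
  refine ⟨h.anti, fun i hi => h.zero i (by omega), ?_⟩
  rw [ms_addIso, h.eq, Multiset.range_succ (m + 1), Multiset.map_cons, h.zero (m + 1) (by omega)]

lemma Sp_mono {k m : ℕ} (hkm : k ≤ m) : Sp k ⊆ Sp m := by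
  induction m, hkm using Nat.le_induction with
  | base => exact fun _ h => h
  | succ m _ ih =>
    intro f hf
    obtain ⟨G, hG⟩ := ih hf
    exact ⟨addIso G, isSp_addIso hG⟩

lemma R_mem_Sp {m : ℕ} {f : ℕ → ℝ} (h : f ∈ Sp m) : R m f ∈ Sp m := by
  obtain ⟨G, hG⟩ := h
  exact ⟨Gᶜ, isSp_R hG⟩

/-- `R (dom g) = R g`. -/
lemma R_dom {m : ℕ} {g : ℕ → ℝ} : R (m + 1) (dom m g) = R m g := by
  funext i
  simp only [R]
  by_cases hi : i < m
  · have h1 : i < m + 1 := by omega
    have h2 : m + 1 - 1 - i = (m - 1 - i) + 1 := by omega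
    simp only [hi, h1, if_true, h2]
    rw [dom_succ m g _ (by omega)]
    push_cast
    ring
  · by_cases h1 : i < m + 1
    · have h2 : m + 1 - 1 - i = 0 := by omega
      simp only [hi, h1, if_true, if_false, h2, dom_zero]
      push_cast
      ring
    · simp only [hi, h1, if_false]

lemma R_mem_Ts : ∀ {m : ℕ} {f : ℕ → ℝ}, f ∈ Ts m → R m f ∈ Ts m
  | 0, f, hf => by
    have : f = 0 := hf
    subst this
    change R 0 0 = 0
    funext i
    simp [R]
  | m + 1, f, hf => by
    rcases hf with hf | ⟨g, hg, rfl⟩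
    · have hf' := R_mem_Ts hf
      have hz : ∀ i, m ≤ i → f i = 0 := (Ts_subset m f hf).zero
      have h1 : R (m + 1) f = dom m (R m f) := by
        have h2 : R (m + 1) (dom m (R m f)) = f := by rw [R_dom, R_R hz]
        rw [← h2, R_R (fun i hi => dom_big m _ i hi), h2]
      rw [h1]
      exact dom_mem_Ts hf'
    · left
      change R (m + 1) (dom m g) ∈ Ts m
      rw [R_dom]
      exact R_mem_Ts hg

lemma zero_mem_Ts : ∀ m, (0 : ℕ → ℝ) ∈ Ts m
  | 0 => rfl
  | m + 1 => Or.inl (zero_mem_Ts m)

lemma Ts_mono {k m : ℕ} (hkm : k ≤ m) : Ts k ⊆ Ts m := by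
  induction m, hkm using Nat.le_induction with
  | base => exact fun _ h => h
  | succ m _ ih => exact fun f hf => Or.inl (ih hf)

/-- Nonzero threshold vectors come from a domination step. -/
lemma Ts_cases : ∀ {m : ℕ} {f : ℕ → ℝ}, f ∈ Ts m →
    f = 0 ∨ ∃ k g, k < m ∧ g ∈ Ts k ∧ f = dom k g
  | 0, f, hf => Or.inl hf
  | m + 1, f, hf => by
    rcases hf with hf | ⟨g, hg, rfl⟩
    · rcases Ts_cases hf with h | ⟨k, g, hk, hg, h⟩
      · exact Or.inl h
      · exact Or.inr ⟨k, g, by omega, hg, h⟩
    · exact Or.inr ⟨m, g, by omega, hg, rfl⟩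

/-- Spectra on the top face of a zero face are spectra of smaller graphs. -/
lemma sp_face {m k : ℕ} (hkm : k ≤ m) {f : ℕ → ℝ} (hf : f ∈ Sp m) (hz : ∀ i, k ≤ i → f i = 0) :
    f 0 ≤ k + 1 ∧ (f 0 = k + 1 → f ∈ Sp k) := by
  classical
  obtain ⟨G, hG⟩ := hf
  have hcount : Fintype.card (Fin (m + 1)) ≤ (ms G).count 0 + k := by
    rw [hG.eq, Multiset.count_map, Fintype.card_fin]
    have h1 : ((Finset.Ico k (m + 1)).val) ≤ (Multiset.range (m + 1)).filter (fun a => 0 = f a) := by
      rw [Multiset.le_iff_subset (Finset.nodup _)]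
      intro a ha
      have ha' : a ∈ Finset.Ico k (m + 1) := ha
      rw [Finset.mem_Ico] at ha'
      rw [Multiset.mem_filter, Multiset.mem_range]
      exact ⟨ha'.2, (hz a ha'.1).symm⟩
    have h2 := Multiset.card_le_card h1
    rw [Finset.card_val, Nat.card_Ico] at h2
    omega
  have hst := structure_lemma G hcount (hG.mem (Nat.zero_le m))
  refine ⟨hst.1, fun h0 => ?_⟩
  obtain ⟨C, hC, hadj⟩ := hst.2 h0
  have hb := ms_block G (C : Set (Fin (m + 1))) (fun u w h => hadj u w h)
  let e : (C : Set (Fin (m + 1))) ≃ Fin (k + 1) :=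
    Fintype.equivFinOfCardEq (by simpa using hC)
  let H : SimpleGraph (Fin (k + 1)) := (G.induce (C : Set (Fin (m + 1)))).map e.toEmbedding
  have he : (G.induce (C : Set (Fin (m + 1)))) ≃g H := SimpleGraph.Iso.map e _
  rw [ms_iso he] at hb
  have hcc : Fintype.card ((C : Set (Fin (m + 1)))ᶜ : Set (Fin (m + 1))) = m - k := by
    rw [Fintype.card_compl_set, Fintype.card_fin]
    have : Fintype.card (C : Set (Fin (m + 1))) = k + 1 := by simpa using hC
    rw [this]
    omega
  rw [hcc, hG.eq] at hb
  have hsplit : (Multiset.range (m + 1)).map f =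
      (Multiset.range (k + 1)).map f + Multiset.replicate (m - k) 0 := by
    obtain ⟨d, rfl⟩ : ∃ d, m = k + d := ⟨m - k, by omega⟩
    have e1 : k + d - k = d := by omega
    rw [e1]
    clear hb hcc he H e hadj hC C hst hcount hG G h0 hkm e1
    induction d with
    | zero => simp
    | succ d ih =>
      rw [show k + (d + 1) + 1 = (k + d + 1) + 1 by ring, Multiset.range_succ, Multiset.map_cons,
        ih, hz (k + d + 1) (by omega), Multiset.replicate_succ, Multiset.add_cons]
  rw [hsplit] at hb
  have hb' := add_right_cancel hb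
  exact ⟨H, hG.anti, hz, hb'.symm⟩

end Pool.Agent.MP_8604ae_co
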