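import Mathlib
import Pool.Agent.MP_8604ae_co.Thr

/-!
# Threshold vectors are extreme points of the hull of all spectra
-/

namespace Pool.Agent.MP_8604ae_co

open Finset

/-- Face lemma. -/
lemma face {E : Type*} [AddCommGroup E] [Module ℝ E] {A : Set E} {ℓ : E →ₗ[ℝ] ℝ}
    (h : ∀ z ∈ A, 0 ≤ ℓ z) {y : E} (hy : y ∈ convexHull ℝ A) (h0 : ℓ y = 0) :
    y ∈ convexHull ℝ (A ∩ {z | ℓ z = 0}) := by
  have hnn : ∀ z ∈ convexHull ℝ A, 0 ≤ ℓ z := by
    intro z hz
    have : convexHull ℝ A ⊆ {z | 0 ≤ ℓ z} :=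
      convexHull_min h (convex_halfSpace_ge ℓ.isLinear 0)
    exact this hz
  have key : convexHull ℝ A ⊆
      {z | z ∈ convexHull ℝ A ∧ (0 < ℓ z ∨ z ∈ convexHull ℝ (A ∩ {z | ℓ z = 0}))} := by
    apply convexHull_min
    · intro z hz
      refine ⟨subset_convexHull ℝ A hz, ?_⟩
      rcases (h z hz).lt_or_eq with h1 | h1
      · exact Or.inl h1
      · exact Or.inr (subset_convexHull ℝ _ ⟨hz, h1.symm⟩)
    · intro u hu v hv a b ha hb hab
      refine ⟨convex_convexHull ℝ A hu.1 hv.1 ha hb hab, ?_⟩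
      rcases ha.lt_or_eq with ha' | ha'
      · rcases hb.lt_or_eq with hb' | hb'
        · have hl : ℓ (a • u + b • v) = a * ℓ u + b * ℓ v := by simp
          rcases hu.2 with h1 | h1
          · left; rw [hl]
            have := hnn v hv.1
            positivity
          · rcases hv.2 with h2 | h2
            · left; rw [hl]
              have := hnn u hu.1
              positivity
            · right
              exact convex_convexHull ℝ _ h1 h2 ha hb hab
        · have : a = 1 := by linarith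
          rw [this, ← hb', one_smul, zero_smul, add_zero]
          exact hu.2
      · have : b = 1 := by linarith
        rw [this, ← ha', one_smul, zero_smul, zero_add]
        exact hv.2
  rcases (key hy).2 with h1 | h1
  · exact absurd h0 h1.ne'
  · exact h1

/-- The hull of all spectra in sequence form. -/
def Pm (m : ℕ) : Set (ℕ → ℝ) := convexHull ℝ (Sp m)

lemma Pm_nonneg {m : ℕ} {y : ℕ → ℝ} (hy : y ∈ Pm m) (i : ℕ) : 0 ≤ y i := by
  have : Pm m ⊆ {z : ℕ → ℝ | 0 ≤ z i} := by
    apply convexHull_min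
    · rintro z ⟨G, hG⟩
      exact hG.nonneg i
    · exact convex_halfSpace_ge (LinearMap.proj i : (ℕ → ℝ) →ₗ[ℝ] ℝ).isLinear 0
  exact this hy

lemma Pm_zero {m : ℕ} {y : ℕ → ℝ} (hy : y ∈ Pm m) (i : ℕ) (hi : m ≤ i) : y i = 0 := by
  have : Pm m ⊆ {z : ℕ → ℝ | z i = 0} := by
    apply convexHull_min
    · rintro z ⟨G, hG⟩
      exact hG.zero i hi
    · exact convex_hyperplane (LinearMap.proj i : (ℕ → ℝ) →ₗ[ℝ] ℝ).isLinear 0
  exact this hy

/-- The double face. -/
lemma Pm_face {m k : ℕ} (hkm : k ≤ m) {y : ℕ → ℝ} (hy : y ∈ Pm m)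
    (hz : ∀ i, k ≤ i → y i = 0) :
    y 0 ≤ k + 1 ∧ (y 0 = k + 1 → y ∈ Pm k) := by
  let ℓ : (ℕ → ℝ) →ₗ[ℝ] ℝ := ∑ i ∈ Finset.Ico k m, LinearMap.proj i
  have hℓ : ∀ z, ℓ z = ∑ i ∈ Finset.Ico k m, z i := by
    intro z
    simp [ℓ, LinearMap.sum_apply]
  have h1 : y ∈ convexHull ℝ (Sp m ∩ {z | ℓ z = 0}) := by
    apply face _ hy
    · rw [hℓ]
      exact Finset.sum_eq_zero (fun i hi => hz i (Finset.mem_Ico.1 hi).1)
    · rintro z ⟨G, hG⟩
      rw [hℓ]
      exact Finset.sum_nonneg (fun i _ => hG.nonneg i)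
  have hprop : ∀ z ∈ Sp m ∩ {z | ℓ z = 0}, z 0 ≤ k + 1 ∧ (z 0 = k + 1 → z ∈ Sp k) := by
    rintro z ⟨hz1, hz2⟩
    have hz3 : ∀ i, k ≤ i → z i = 0 := by
      obtain ⟨G, hG⟩ := hz1
      intro i hi
      rcases Nat.lt_or_ge i m with him | him
      · have hz4 : ∑ i ∈ Finset.Ico k m, z i = 0 := by rw [← hℓ]; exact hz2
        rw [Finset.sum_eq_zero_iff_of_nonneg (fun i _ => hG.nonneg i)] at hz4
        exact hz4 i (Finset.mem_Ico.2 ⟨hi, him⟩)
      · exact hG.zero i him
    exact sp_face hkm hz1 hz3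
  have h2 : y 0 ≤ k + 1 := by
    have : convexHull ℝ (Sp m ∩ {z | ℓ z = 0}) ⊆ {z : ℕ → ℝ | z 0 ≤ k + 1} := by
      apply convexHull_min
      · intro z hz'
        exact (hprop z hz').1
      · exact convex_halfSpace_le (LinearMap.proj 0 : (ℕ → ℝ) →ₗ[ℝ] ℝ).isLinear _
    exact this h1
  refine ⟨h2, fun h0 => ?_⟩
  -- second face, with the affine functional `k + 1 - z 0`
  have key : convexHull ℝ (Sp m ∩ {z | ℓ z = 0}) ⊆
      {z | z 0 ≤ k + 1 ∧ (z 0 < k + 1 ∨ z ∈ Pm k)} := by
    apply convexHull_min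
    · intro z hz'
      have := hprop z hz'
      refine ⟨this.1, ?_⟩
      rcases this.1.lt_or_eq with h3 | h3
      · exact Or.inl h3
      · exact Or.inr (subset_convexHull ℝ _ (this.2 h3))
    · intro u hu v hv a b ha hb hab
      have hu1 : u 0 ≤ k + 1 := hu.1
      have hv1 : v 0 ≤ k + 1 := hv.1
      have hl : (a • u + b • v) 0 = a * u 0 + b * v 0 := by simp
      have hle : a * u 0 + b * v 0 ≤ k + 1 := by
        have e : (k:ℝ) + 1 = a * (k + 1) + b * (k + 1) := by rw [← add_mul, hab, one_mul]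
        rw [e]
        exact add_le_add (mul_le_mul_of_nonneg_left hu1 ha) (mul_le_mul_of_nonneg_left hv1 hb)
      refine ⟨by rw [hl]; exact hle, ?_⟩
      rcases ha.lt_or_eq with ha' | ha'
      · rcases hb.lt_or_eq with hb' | hb'
        · rw [hl]
          have e : (k:ℝ) + 1 = a * (k + 1) + b * (k + 1) := by rw [← add_mul, hab, one_mul]
          rcases hu.2 with h3 | h3
          · left; rw [e]
            exact add_lt_add_of_lt_of_le (mul_lt_mul_of_pos_left h3 ha')
              (mul_le_mul_of_nonneg_left hv1 hb)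
          · rcases hv.2 with h4 | h4
            · left; rw [e]
              exact add_lt_add_of_le_of_lt (mul_le_mul_of_nonneg_left hu1 ha)
                (mul_lt_mul_of_pos_left h4 hb')
            · right
              exact convex_convexHull ℝ _ h3 h4 ha hb hab
        · have : a = 1 := by linarith
          rw [this, ← hb', one_smul, zero_smul, add_zero]
          exact hu.2
      · have : b = 1 := by linarith
        rw [this, ← ha', one_smul, zero_smul, zero_add]
        exact hv.2
  rcases (key h1).2 with h3 | h3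
  · exact absurd h0 h3.ne
  · exact h3

/-- The reversal acts on the hull. -/
lemma R_combo (m : ℕ) (g h : ℕ → ℝ) (a b : ℝ) (hab : a + b = 1) :
    R m (a • g + b • h) = a • R m g + b • R m h := by
  funext i
  simp only [R, Pi.add_apply, Pi.smul_apply, smul_eq_mul]
  split_ifs
  · linear_combination (-(m:ℝ) - 1) * hab
  · ring

lemma R_mem_Pm {m : ℕ} {y : ℕ → ℝ} (hy : y ∈ Pm m) : R m y ∈ Pm m := by
  have : Pm m ⊆ {z | R m z ∈ Pm m} := by
    apply convexHull_min
    · intro z hz
      exact subset_convexHull ℝ _ (R_mem_Sp hz)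
    · intro u hu v hv a b ha hb hab
      change R m (a • u + b • v) ∈ Pm m
      rw [R_combo m u v a b hab]
      exact convex_convexHull ℝ _ hu hv ha hb hab
  exact this hy

lemma R_extreme {m : ℕ} {f : ℕ → ℝ} (h : R m f ∈ (Pm m).extremePoints ℝ)
    (hf : f ∈ Pm m) : f ∈ (Pm m).extremePoints ℝ := by
  rw [mem_extremePoints] at h ⊢
  refine ⟨hf, ?_⟩
  intro x hx y hy hseg
  obtain ⟨a, b, ha, hb, hab, rfl⟩ := hseg
  have := h.2 (R m x) (R_mem_Pm hx) (R m y) (R_mem_Pm hy)
    ⟨a, b, ha, hb, hab, by rw [R_combo m x y a b hab]⟩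
  have e1 : ∀ {u w : ℕ → ℝ}, u ∈ Pm m → w ∈ Pm m → R m u = R m w → u = w := by
    intro u w hu hw huw
    rw [← R_R (Pm_zero hu), ← R_R (Pm_zero hw), huw]
  exact ⟨e1 hx hf this.1, e1 hy hf this.2⟩

/-- The threshold vectors are spectra. -/
lemma Ts_subset_Sp : ∀ m, Ts m ⊆ Sp m
  | 0, f, hf => by
    have : f = 0 := hf
    subst this
    obtain ⟨g, hg⟩ := exists_isSp (m := 0) ⊥
    have : g = 0 := by
      funext i
      exact hg.zero i (Nat.zero_le i)
    rw [this] at hg
    exact ⟨_, hg⟩
  | m + 1, f, hf => by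
    rcases hf with hf | ⟨g, hg, rfl⟩
    · exact Sp_mono (Nat.le_succ m) (Ts_subset_Sp m hf)
    · change dom m g ∈ Sp (m + 1)
      have h1 : R m g ∈ Sp (m + 1) := Sp_mono (Nat.le_succ m) (R_mem_Sp (Ts_subset_Sp m hg))
      have h2 := R_mem_Sp h1
      have h3 : R (m + 1) (dom m g) = R m g := R_dom
      rw [← h3, R_R (fun i hi => dom_big m g i hi)] at h2
      exact h2

/-- Threshold vectors are extreme points of the hull of all spectra. -/
theorem Ts_extreme (m : ℕ) : Ts m ⊆ (Pm m).extremePoints ℝ := by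
  induction m using Nat.strong_induction_on with
  | _ m ih =>
    -- the disconnected case
    have hiso : ∀ f ∈ Ts m, (f = 0 ∨ ∃ k g, k + 1 < m ∧ g ∈ Ts k ∧ f = dom k g) →
        f ∈ (Pm m).extremePoints ℝ := by
      intro f hf hcase
      have hfP : f ∈ Pm m := subset_convexHull ℝ _ (Ts_subset_Sp m hf)
      rw [mem_extremePoints]
      refine ⟨hfP, ?_⟩
      intro x hx y hy hseg
      obtain ⟨a, b, ha, hb, hab, hxy⟩ := hseg
      have hcoord : ∀ i, f i = a * x i + b * y i := by
        intro i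
        rw [← hxy]
        simp
      have hzero : ∀ i, f i = 0 → x i = 0 ∧ y i = 0 := by
        intro i hi
        have h1 := hcoord i
        rw [hi] at h1
        have h2 := mul_nonneg ha.le (Pm_nonneg hx i)
        have h3 := mul_nonneg hb.le (Pm_nonneg hy i)
        have h4 : a * x i = 0 := by linarith
        have h5 : b * y i = 0 := by linarith
        exact ⟨(mul_eq_zero.1 h4).resolve_left ha.ne', (mul_eq_zero.1 h5).resolve_left hb.ne'⟩
      rcases hcase with h0 | ⟨k, g, hk, hg, rfl⟩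
      · subst h0
        exact ⟨funext fun i => (hzero i rfl).1, funext fun i => (hzero i rfl).2⟩
      · have hz : ∀ i, k + 1 ≤ i → dom k g i = 0 := fun i hi => dom_big k g i hi
        have hx1 := Pm_face (show k + 1 ≤ m by omega) hx (fun i hi => (hzero i (hz i hi)).1)
        have hy1 := Pm_face (show k + 1 ≤ m by omega) hy (fun i hi => (hzero i (hz i hi)).2)
        have h0 := hcoord 0
        rw [dom_zero] at h0
        have hx2 : x 0 = ((k + 1 : ℕ) : ℝ) + 1 := by
          by_contra hne
          have hlt := lt_of_le_of_ne hx1.1 hne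
          have h1 := mul_lt_mul_of_pos_left hlt ha
          have h2 := mul_le_mul_of_nonneg_left hy1.1 hb.le
          push_cast at h1 h2
          have h3 : a * ((k:ℝ) + 1 + 1) + b * (k + 1 + 1) = k + 2 := by
            rw [← add_mul, hab]; ring
          linarith
        have hy2 : y 0 = ((k + 1 : ℕ) : ℝ) + 1 := by
          by_contra hne
          have hlt := lt_of_le_of_ne hy1.1 hne
          have h1 := mul_lt_mul_of_pos_left hlt hb
          have h2 := mul_le_mul_of_nonneg_left hx1.1 ha.le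
          push_cast at h1 h2
          have h3 : a * ((k:ℝ) + 1 + 1) + b * (k + 1 + 1) = k + 2 := by
            rw [← add_mul, hab]; ring
          linarith
        have hx3 := hx1.2 hx2
        have hy3 := hy1.2 hy2
        have hext := ih (k + 1) hk (dom_mem_Ts hg)
        rw [mem_extremePoints] at hext
        exact hext.2 x hx3 y hy3 ⟨a, b, ha, hb, hab, hxy⟩
    intro f hf
    rcases Ts_cases hf with h | ⟨k, g, hk, hg, h⟩
    · exact hiso f hf (Or.inl h)
    · by_cases hkm : k + 1 < m
      · exact hiso f hf (Or.inr ⟨k, g, hkm, hg, h⟩)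
      · -- connected case: use the complement
        obtain rfl : m = k + 1 := by omega
        subst h
        apply R_extreme _ (subset_convexHull ℝ _ (Ts_subset_Sp _ hf))
        rw [R_dom]
        have hR : R k g ∈ Ts k := R_mem_Ts hg
        apply hiso _ (Ts_mono (Nat.le_succ k) hR)
        rcases Ts_cases hR with h | ⟨k', g', hk', hg', h⟩
        · exact Or.inl h
        · exact Or.inr ⟨k', g', by omega, hg', h⟩

end Pool.Agent.MP_8604ae_co
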