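import Mathlib
import Pool.Agent.MP_8604ae_co.Defs
import Pool.Agent.MP_8604ae_co.Main

/-!
# Transfer to vectors indexed by `Fin n`
-/

namespace Pool.Agent.MP_8604ae_co

open Finset

/-- Extension by zero. -/
def E (n : ℕ) : (Fin n → ℝ) →ₗ[ℝ] (ℕ → ℝ) where
  toFun x := fun i => if h : i < n then x ⟨i, h⟩ else 0
  map_add' x y := by
    funext i
    simp only [Pi.add_apply]
    split_ifs <;> simp
  map_smul' c x := by
    funext i
    simp only [Pi.smul_apply, smul_eq_mul, RingHom.id_apply]
    split_ifs <;> simp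

lemma E_apply_lt {n : ℕ} (x : Fin n → ℝ) {i : ℕ} (h : i < n) : E n x i = x ⟨i, h⟩ := by
  simp [E, h]

lemma E_apply_fin {n : ℕ} (x : Fin n → ℝ) (i : Fin n) : E n x i = x i := E_apply_lt x i.2

lemma E_apply_ge {n : ℕ} (x : Fin n → ℝ) {i : ℕ} (h : n ≤ i) : E n x i = 0 := by
  have : ¬ i < n := by omega
  simp [E, this]

lemma E_injective (n : ℕ) : Function.Injective (E n) := by
  intro x y h
  funext i
  rw [← E_apply_fin x i, ← E_apply_fin y i, h]

lemma E_res {n : ℕ} {f : ℕ → ℝ} (hf : ∀ i, n ≤ i → f i = 0) : E n (fun i : Fin n => f i) = f := by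
  funext i
  rcases Nat.lt_or_ge i n with h | h
  · rw [E_apply_lt _ h]
  · rw [E_apply_ge _ h, hf i h]

lemma topSum_eq {n : ℕ} (x : Fin n → ℝ) (p : ℕ) : topSum x p = S (E n x) p := by
  unfold topSum S
  rw [Finset.sum_filter]
  have h1 : ∑ i : Fin n, (if (i : ℕ) < p then x i else 0) =
      ∑ i ∈ range n, (if i < p then E n x i else 0) := by
    rw [Finset.sum_range]
    apply Finset.sum_congr rfl
    intro i _
    rw [E_apply_fin]
  rw [h1, ← Finset.sum_filter]
  have h2 : (range p) = (range n).filter (· < p) ∪ (range p).filter (n ≤ ·) := by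
    ext i
    simp only [mem_union, mem_filter, mem_range]
    omega
  rw [h2, Finset.sum_union]
  · have : ∑ i ∈ (range p).filter (n ≤ ·), E n x i = 0 := by
      apply Finset.sum_eq_zero
      intro i hi
      rw [mem_filter] at hi
      exact E_apply_ge x hi.2
    rw [this, add_zero]
  · rw [Finset.disjoint_left]
    intro i hi hi'
    simp only [mem_filter, mem_range] at hi hi'
    omega

lemma univ_map_val (n : ℕ) : (Finset.univ : Finset (Fin n)).val.map (fun i : Fin n => (i : ℕ))
    = Multiset.range n := by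
  have := Fin.map_valEmbedding_univ (n := n)
  have h4 := congrArg Finset.val this
  rw [Finset.map_val, Nat.Iio_eq_range] at h4
  exact h4

/-- The two descriptions of a spectrum agree. -/
lemma isSpectrum_iff {m : ℕ} (G : SimpleGraph (Fin (m + 1))) (x : Fin (m + 1) → ℝ) :
    IsSpectrum G x ↔ IsSp m (E (m + 1) x) G := by
  classical
  have hmap : (Finset.univ : Finset (Fin (m + 1))).val.map x =
      (Multiset.range (m + 1)).map (E (m + 1) x) := by
    rw [← univ_map_val (m + 1), Multiset.map_map]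
    apply Multiset.map_congr rfl
    intro i _
    exact (E_apply_fin x i).symm
  constructor
  · rintro ⟨ha, hc⟩
    have heq : ms G = (Multiset.range (m + 1)).map (E (m + 1) x) := by
      rw [ms_def G, hc, ← hmap, Polynomial.roots_prod _ _ (by
        rw [Finset.prod_ne_zero_iff]; intro i _; exact Polynomial.X_sub_C_ne_zero _)]
      simp [Polynomial.roots_X_sub_C, Multiset.bind_singleton]
    have hnn : ∀ i, 0 ≤ x i := by
      intro i
      apply ms_nonneg G
      rw [heq, Multiset.mem_map]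
      exact ⟨i, Multiset.mem_range.2 i.2, E_apply_fin x i⟩
    have hanti : Antitone (E (m + 1) x) := by
      intro i j hij
      rcases Nat.lt_or_ge j (m + 1) with hj | hj
      · have hi : i < m + 1 := by omega
        rw [E_apply_lt x hi, E_apply_lt x hj]
        exact ha hij
      · rw [E_apply_ge x hj]
        rcases Nat.lt_or_ge i (m + 1) with hi | hi
        · rw [E_apply_lt x hi]; exact hnn _
        · rw [E_apply_ge x hi]
    refine ⟨hanti, ?_, heq⟩
    intro i hi
    rcases hi.eq_or_lt with h | h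
    · rw [← h]
      exact last_zero hanti heq
    · exact E_apply_ge x h
  · intro h
    refine ⟨?_, ?_⟩
    · intro i j hij
      rw [← E_apply_fin x i, ← E_apply_fin x j]
      exact h.anti hij
    · have h1 := charpoly_lap G
      rw [h.eq, ← hmap, Multiset.map_map] at h1
      have h2 : (G.lapMatrix ℝ).charpoly = ∏ i, (Polynomial.X - Polynomial.C (x i)) := h1
      convert h2

lemma E_image_spectra (m : ℕ) : E (m + 1) '' spectra (m + 1) = Sp m := by
  ext f
  constructor
  · rintro ⟨x, ⟨G, hG⟩, rfl⟩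
    exact ⟨G, (isSpectrum_iff G x).1 hG⟩
  · rintro ⟨G, hG⟩
    have hE : E (m + 1) (fun i : Fin (m + 1) => f i) = f :=
      E_res (fun i hi => hG.zero i (by omega))
    refine ⟨fun i : Fin (m + 1) => f i, ⟨G, ?_⟩, hE⟩
    rw [isSpectrum_iff, hE]
    exact hG

lemma E_image_P (m : ℕ) : E (m + 1) '' P (m + 1) = Pm m := by
  unfold P Pm
  rw [LinearMap.image_convexHull, E_image_spectra]

/-- Extreme points under an injective linear map. -/
lemma extremePoints_image {E₁ E₂ : Type*} [AddCommGroup E₁] [Module ℝ E₁] [AddCommGroup E₂]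
    [Module ℝ E₂] (f : E₁ →ₗ[ℝ] E₂) (hf : Function.Injective f) (A : Set E₁) :
    f '' (A.extremePoints ℝ) = (f '' A).extremePoints ℝ := by
  ext y
  constructor
  · rintro ⟨x, hx, rfl⟩
    rw [mem_extremePoints] at hx ⊢
    refine ⟨⟨x, hx.1, rfl⟩, ?_⟩
    rintro _ ⟨x1, hx1, rfl⟩ _ ⟨x2, hx2, rfl⟩ ⟨a, b, ha, hb, hab, h⟩
    have := hx.2 x1 hx1 x2 hx2 ⟨a, b, ha, hb, hab, hf (by simpa using h)⟩
    exact ⟨by rw [this.1], by rw [this.2]⟩
  · intro hy
    rw [mem_extremePoints] at hy
    obtain ⟨⟨x, hx, rfl⟩, h⟩ := hy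
    refine ⟨x, ?_, rfl⟩
    rw [mem_extremePoints]
    refine ⟨hx, ?_⟩
    rintro x1 hx1 x2 hx2 ⟨a, b, ha, hb, hab, rfl⟩
    have := h (f x1) ⟨x1, hx1, rfl⟩ (f x2) ⟨x2, hx2, rfl⟩ ⟨a, b, ha, hb, hab, by simp⟩
    exact ⟨hf this.1, hf this.2⟩

lemma E_image_extreme (m : ℕ) :
    E (m + 1) '' ((P (m + 1)).extremePoints ℝ) = (Pm m).extremePoints ℝ := by
  rw [extremePoints_image _ (E_injective _), E_image_P]

/-! ### Threshold graphs -/

/-- The standard threshold graph of a 0/1 sequence. -/
def Th (b : ℕ → Prop) (n : ℕ) : SimpleGraph (Fin n) where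
  Adj i j := i ≠ j ∧ b (max (i : ℕ) j)
  symm := ⟨fun i j h => ⟨h.1.symm, by rw [max_comm]; exact h.2⟩⟩
  loopless := ⟨fun i h => h.1 rfl⟩

open scoped Classical in
/-- The threshold vector of a 0/1 sequence. -/
noncomputable def tv (b : ℕ → Prop) : ℕ → ℕ → ℝ
  | 0 => 0
  | (m + 1) => if b (m + 1) then dom m (tv b m) else tv b m

lemma tv_mem (b : ℕ → Prop) : ∀ m, tv b m ∈ Ts m
  | 0 => rfl
  | m + 1 => by
    rw [tv]
    split_ifs
    · exact dom_mem_Ts (tv_mem b m)
    · exact Or.inl (tv_mem b m)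

lemma tv_congr {b b' : ℕ → Prop} : ∀ m, (∀ i, 1 ≤ i → i ≤ m → (b i ↔ b' i)) → tv b m = tv b' m
  | 0, _ => rfl
  | m + 1, h => by
    have h1 := tv_congr m (fun i hi hi' => h i hi (by omega))
    rw [tv, tv, h1]
    have h2 := h (m + 1) (by omega) le_rfl
    by_cases hb : b (m + 1)
    · rw [if_pos hb, if_pos (h2.1 hb)]
    · rw [if_neg hb, if_neg (fun h' => hb (h2.2 h'))]

lemma exists_tv : ∀ (m : ℕ) (f : ℕ → ℝ), f ∈ Ts m → ∃ b : ℕ → Prop, tv b m = f
  | 0, f, hf => ⟨fun _ => True, by
      have : f = 0 := hf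
      rw [this]; rfl⟩
  | m + 1, f, hf => by
    rcases hf with hf | ⟨g, hg, rfl⟩
    · obtain ⟨b, hb⟩ := exists_tv m f hf
      refine ⟨fun i => if i = m + 1 then False else b i, ?_⟩
      rw [tv, if_neg (by simp)]
      rw [← hb]
      apply tv_congr
      intro i _ hi
      have : i ≠ m + 1 := by omega
      simp [this]
    · obtain ⟨b, hb⟩ := exists_tv m g hg
      refine ⟨fun i => if i = m + 1 then True else b i, ?_⟩
      rw [tv, if_pos (by simp)]
      change dom m _ = dom m g
      congr 1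
      rw [← hb]
      apply tv_congr
      intro i _ hi
      have : i ≠ m + 1 := by omega
      simp [this]

lemma Th_succ_neg {b : ℕ → Prop} {n : ℕ} (h : ¬ b n) : Th b (n + 1) = addIso (Th b n) := by
  ext i j
  refine Fin.lastCases ?_ (fun i => ?_) i
  · constructor
    · rintro ⟨h1, h2⟩
      exfalso
      apply h
      have : max ((Fin.last n : Fin (n + 1)) : ℕ) (j : ℕ) = n := by
        rw [Fin.val_last]
        exact max_eq_left (Nat.lt_succ_iff.1 j.2)
      rwa [this] at h2
    · intro h1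
      unfold addIso at h1
      rw [SimpleGraph.map_adj] at h1
      obtain ⟨a, _, _, ha, _⟩ := h1
      exact absurd ha (Fin.castSucc_lt_last a).ne
  · refine Fin.lastCases ?_ (fun j => ?_) j
    · constructor
      · rintro ⟨h1, h2⟩
        exfalso
        apply h
        have : max ((i.castSucc : Fin (n + 1)) : ℕ) ((Fin.last n : Fin (n + 1)) : ℕ) = n := by
          rw [Fin.val_last]
          exact max_eq_right (Nat.lt_succ_iff.1 i.castSucc.2)
        rwa [this] at h2
      · intro h1
        unfold addIso at h1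
        rw [SimpleGraph.map_adj] at h1
        obtain ⟨_, a, _, _, ha⟩ := h1
        exact absurd ha (Fin.castSucc_lt_last a).ne
    · rw [addIso_adj]
      simp only [Th, ne_eq, Fin.castSucc_inj, Fin.val_castSucc]

lemma Th_compl (b : ℕ → Prop) (n : ℕ) : (Th b n)ᶜ = Th (fun i => ¬ b i) n := by
  ext i j
  rw [SimpleGraph.compl_adj]
  simp only [Th]
  tauto

lemma isSp_Th (b : ℕ → Prop) : ∀ m, IsSp m (tv b m) (Th b (m + 1))
  | 0 => by
    obtain ⟨f, hf⟩ := exists_isSp (m := 0) (Th b 1)
    have : f = 0 := funext fun i => hf.zero i (Nat.zero_le i)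
    rw [this] at hf
    exact hf
  | m + 1 => by
    classical
    have ih := isSp_Th b m
    by_cases hb : b (m + 1)
    · rw [tv, if_pos hb]
      have h1 : IsSp (m + 1) (R m (tv b m)) (addIso (Th b (m + 1))ᶜ) := isSp_addIso (isSp_R ih)
      have h2 := isSp_R h1
      have h3 : addIso (Th b (m + 1))ᶜ = Th (fun i => ¬ b i) (m + 2) := by
        rw [Th_compl]
        exact (Th_succ_neg (by simpa using hb)).symm
      rw [h3, Th_compl] at h2
      have h4 : Th (fun i => ¬ (fun i => ¬ b i) i) (m + 2) = Th b (m + 2) := by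
        ext i j
        simp [Th]
      rw [h4] at h2
      have h5 : R (m + 1) (dom m (tv b m)) = R m (tv b m) := R_dom
      rw [← h5, R_R (fun i hi => dom_big m _ i hi)] at h2
      exact h2
    · rw [tv, if_neg hb]
      have h1 : Th b (m + 1 + 1) = addIso (Th b (m + 1)) := Th_succ_neg hb
      rw [h1]
      exact isSp_addIso ih

lemma isThreshold_Th (b : ℕ → Prop) (n : ℕ) : IsThreshold (Th b n) := by
  refine ⟨Equiv.refl _, fun i => b i, ?_⟩
  intro i j hij
  simp only [Th, Equiv.refl_apply]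
  have : max (i : ℕ) j = j := max_eq_right (le_of_lt hij)
  rw [this]
  constructor
  · exact fun h => h.2
  · exact fun h => ⟨hij.ne, h⟩

/-- A threshold graph is isomorphic to a standard one. -/
lemma IsThreshold.iso {n : ℕ} {G : SimpleGraph (Fin n)} (h : IsThreshold G) :
    ∃ b : ℕ → Prop, Nonempty (Th b n ≃g G) := by
  obtain ⟨e, b, hb⟩ := h
  refine ⟨fun i => if h : i < n then b ⟨i, h⟩ else False, ⟨⟨e, ?_⟩⟩⟩
  intro i j
  rcases lt_trichotomy i j with hij | hij | hij
  · rw [hb i j hij]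
    simp only [Th]
    have : max (i : ℕ) j = j := max_eq_right (le_of_lt hij)
    rw [this]
    simp [hij.ne]
  · subst hij
    simp [Th]
  · rw [SimpleGraph.adj_comm, hb j i hij]
    simp only [Th]
    have : max (i : ℕ) j = i := max_eq_left (le_of_lt hij)
    rw [this]
    simp [hij.ne']

lemma E_image_threshold (m : ℕ) : E (m + 1) '' thresholdSpectra (m + 1) = Ts m := by
  ext f
  constructor
  · rintro ⟨x, ⟨G, hT, hG⟩, rfl⟩
    obtain ⟨b, ⟨e⟩⟩ := hT.iso
    have h1 := (isSpectrum_iff G x).1 hG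
    have h2 := isSp_Th b m
    have h3 : IsSp m (tv b m) G := ⟨h2.anti, h2.zero, by rw [← ms_iso e]; exact h2.eq⟩
    rw [isSp_unique h1 h3]
    exact tv_mem b m
  · intro hf
    obtain ⟨b, hb⟩ := exists_tv m f hf
    have h2 := isSp_Th b m
    rw [hb] at h2
    have hE : E (m + 1) (fun i : Fin (m + 1) => f i) = f :=
      E_res (fun i hi => h2.zero i (by omega))
    refine ⟨fun i : Fin (m + 1) => f i, ⟨Th b (m + 1), isThreshold_Th b _, ?_⟩, hE⟩
    rw [isSpectrum_iff, hE]
    exact h2

lemma ineq_iff {m : ℕ} {x : Fin (m + 1) → ℝ} (hz : x (Fin.last m) = 0) :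
    Ineq x ↔ ∀ p q : ℕ, 1 ≤ p → p ≤ q → q ≤ m →
      S (E (m + 1) x) p + S (E (m + 1) x) q ≤ S (E (m + 1) x) m + p * (q + 1) := by
  unfold Ineq
  have h0 : E (m + 1) x m = 0 := by
    rw [E_apply_lt x (by omega : m < m + 1)]
    exact hz
  constructor
  · intro h p q hp hpq hq
    have := h p q hp hpq (by omega)
    rw [topSum_eq, topSum_eq, topSum_eq, S_succ _ m, h0, add_zero] at this
    exact this
  · intro h p q hp hpq hq
    have := h p q hp hpq (by omega)
    rw [topSum_eq, topSum_eq, topSum_eq, S_succ _ m, h0, add_zero]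
    exact this

/-- The explicit polytope. -/
def Q (n : ℕ) : Set (Fin n → ℝ) :=
  {x | Antitone x ∧ (∀ i : Fin n, (i : ℕ) + 1 = n → x i = 0) ∧ Ineq x}

lemma E_image_Q (m : ℕ) : E (m + 1) '' Q (m + 1) = QS m := by
  ext f
  constructor
  · rintro ⟨x, ⟨ha, hz, hi⟩, rfl⟩
    have hz' : x (Fin.last m) = 0 := hz _ (by simp)
    have hnn : ∀ i, 0 ≤ x i := fun i => by rw [← hz']; exact ha (Fin.le_last i)
    refine ⟨?_, ?_, (ineq_iff hz').1 hi⟩
    · intro i
      rcases Nat.lt_or_ge (i + 1) (m + 1) with hj | hj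
      · rw [E_apply_lt x hj, E_apply_lt x (by omega : i < m + 1)]
        exact ha (by simp [Fin.le_def])
      · rw [E_apply_ge x hj]
        rcases Nat.lt_or_ge i (m + 1) with h1 | h1
        · rw [E_apply_lt x h1]; exact hnn _
        · rw [E_apply_ge x h1]
    · intro i hi'
      rcases hi'.eq_or_lt with h1 | h1
      · rw [← h1, E_apply_lt x (by omega : m < m + 1)]; exact hz'
      · exact E_apply_ge x h1
  · intro hf
    have hf' : Qs m f := hf
    have hE : E (m + 1) (fun i : Fin (m + 1) => f i) = f :=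
      E_res (fun i hi => hf'.zero i (by omega))
    refine ⟨fun i : Fin (m + 1) => f i, ⟨?_, ?_, ?_⟩, hE⟩
    · intro i j hij
      exact hf'.antitone hij
    · intro i hi
      exact hf'.zero _ (by omega)
    · rw [ineq_iff (by simpa using hf'.zero m le_rfl), hE]
      exact hf'.ineq

end Pool.Agent.MP_8604ae_co
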