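import Mathlib
import Pool.Agent.MP_8604ae_co.Final

/-!
# Equivalence with the inequalities, monotonicity in `n`
-/

namespace Pool.Agent.MP_8604ae_co

open Finset

lemma Sp_finite (m : ℕ) : (Sp m).Finite := by
  classical
  have h : Sp m ⊆ Set.range (fun G : SimpleGraph (Fin (m + 1)) => (exists_isSp G).choose) := by
    rintro f ⟨G, hG⟩
    exact ⟨G, isSp_unique (exists_isSp G).choose_spec hG⟩
  exact (Set.finite_range _).subset h

lemma convexHull_Ts_subset (m : ℕ) : convexHull ℝ (Ts m) ⊆ Pm m :=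
  convexHull_mono (Ts_subset_Sp m)

theorem extreme_eq_iff (m : ℕ) :
    (Pm m).extremePoints ℝ = Ts m ↔ ∀ f ∈ Sp m, Qs m f := by
  constructor
  · intro h f hf
    have hc : IsCompact (Pm m) := (Sp_finite m).isCompact_convexHull ℝ
    have h1 := closure_convexHull_extremePoints hc (convex_convexHull ℝ _)
    rw [h, ((Ts_finite m).isClosed_convexHull ℝ).closure_eq, ← QS_eq_convexHull] at h1
    have h2 : f ∈ Pm m := subset_convexHull ℝ _ hf
    rw [← h1] at h2
    exact h2
  · intro h
    have h1 : Pm m = convexHull ℝ (Ts m) := by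
      apply Set.Subset.antisymm
      · rw [← QS_eq_convexHull]
        exact convexHull_min h (QS_convex m)
      · exact convexHull_Ts_subset m
    apply Set.Subset.antisymm
    · rw [h1]
      exact extremePoints_convexHull_subset
    · exact Ts_extreme m

lemma Qs_of_ineq {m : ℕ} {f : ℕ → ℝ} {G : SimpleGraph (Fin (m + 1))} (h : IsSp m f G)
    (hi : ∀ p q, 1 ≤ p → p ≤ q → q ≤ m → S f p + S f q ≤ S f m + p * (q + 1)) : Qs m f :=
  ⟨fun i => h.anti (Nat.le_succ i), h.zero, hi⟩

theorem extreme_eq_mono {k m : ℕ} (hkm : k ≤ m) (h : (Pm m).extremePoints ℝ = Ts m) :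
    (Pm k).extremePoints ℝ = Ts k := by
  rw [extreme_eq_iff] at h ⊢
  intro f hf
  have h1 := h f (Sp_mono hkm hf)
  obtain ⟨G, hG⟩ := hf
  apply Qs_of_ineq hG
  intro p q hp hpq hq
  have := h1.ineq p q hp hpq (by omega)
  rw [S_tail hG.zero m hkm] at this
  exact this

end Pool.Agent.MP_8604ae_co
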