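import Mathlib
import Pool.Agent.MP_8604ae_co.Equiv

/-!
# Closure of the inequalities under disjoint unions and complements
-/

namespace Pool.Agent.MP_8604ae_co

open Finset Matrix Polynomial

lemma lap_apply' {V : Type*} [Fintype V] (G : SimpleGraph V) [DecidableEq V] [DecidableRel G.Adj]
    (i j : V) : G.lapMatrix ℝ i j =
      (if i = j then ∑ k, (if G.Adj i k then (1:ℝ) else 0) else 0)
        - (if G.Adj i j then 1 else 0) := by
  rw [lap_apply, SimpleGraph.degree_eq_sum_if_adj]

/-- Eigenvalues of a disjoint union. -/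
lemma ms_sum {V W : Type*} [Fintype V] [Fintype W] (G : SimpleGraph V) (H : SimpleGraph W) :
    ms (G ⊕g H) = ms G + ms H := by
  classical
  have hblock : (G ⊕g H).lapMatrix ℝ =
      Matrix.fromBlocks (G.lapMatrix ℝ) 0 0 (H.lapMatrix ℝ) := by
    ext i j
    rcases i with i | i <;> rcases j with j | j
    · rw [Matrix.fromBlocks_apply₁₁, lap_apply', lap_apply', Fintype.sum_sum_type]
      simp
    · rw [Matrix.fromBlocks_apply₁₂, lap_apply']
      simp
    · rw [Matrix.fromBlocks_apply₂₁, lap_apply']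
      simp
    · rw [Matrix.fromBlocks_apply₂₂, lap_apply', lap_apply', Fintype.sum_sum_type]
      simp
  have hch : ((G ⊕g H).lapMatrix ℝ).charpoly =
      (G.lapMatrix ℝ).charpoly * (H.lapMatrix ℝ).charpoly := by
    rw [hblock, Matrix.charpoly_fromBlocks_zero₁₂]
  rw [ms_def, hch, Polynomial.roots_mul, ms_def, ms_def]
  exact mul_ne_zero (Matrix.charpoly_monic _).ne_zero (Matrix.charpoly_monic _).ne_zero

/-- A sub-multiset of a sorted list has sum at most the corresponding partial sum. -/
lemma sum_sub_le {f : ℕ → ℝ} (hf : Antitone f) : ∀ (n : ℕ) (A : Multiset ℝ),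
    A ≤ (Multiset.range n).map f → A.sum ≤ S f (Multiset.card A)
  | 0, A, h => by
    have : A = 0 := by simpa using h
    rw [this]
    simp [S]
  | n + 1, A, h => by
    rw [Multiset.range_succ, Multiset.map_cons] at h
    by_cases hA : f n ∈ A
    · obtain ⟨B, rfl⟩ := Multiset.exists_cons_of_mem hA
      rw [Multiset.cons_le_cons_iff] at h
      have h1 := sum_sub_le hf n B h
      have h2 : Multiset.card B ≤ n := by
        have := Multiset.card_le_card h
        simpa using this
      rw [Multiset.sum_cons, Multiset.card_cons, S_succ]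
      have := hf h2
      linarith
    · exact sum_sub_le hf n A ((Multiset.le_cons_of_notMem hA).1 h)

/-- Symmetric form of the inequality. -/
def GB (f : ℕ → ℝ) (T : ℝ) : Prop :=
  ∀ p q : ℕ, p ≤ q → S f p + S f q ≤ T + p * (q + 1)

lemma gb_of_qs {m : ℕ} {f : ℕ → ℝ} (h : Qs m f) : GB f (S f m) := by
  intro p q hpq
  have hmono := S_mono h.nonneg
  have htail : ∀ q, S f q ≤ S f m := by
    intro q
    rcases Nat.lt_or_ge q m with hq | hq
    · exact hmono hq.le
    · rw [S_tail h.zero q hq]
  rcases Nat.eq_zero_or_pos p with hp | hp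
  · subst hp
    rw [S_zero]
    have := htail q
    push_cast
    linarith
  · rcases Nat.lt_or_ge m q with hq | hq
    · have h1 := htail q
      have h2 := S_le_mul h.le p
      have h3 : (m:ℝ) ≤ q := by exact_mod_cast hq.le
      have h4 : (0:ℝ) ≤ p := by positivity
      nlinarith
    · exact h.ineq p q hp hpq hq

/-- Closure under disjoint unions. -/
lemma qs_union {a b m : ℕ} {f g h : ℕ → ℝ} {G : SimpleGraph (Fin (a + 1))}
    {H : SimpleGraph (Fin (b + 1))} {K : SimpleGraph (Fin (m + 1))} (hf : IsSp a f G)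
    (hg : IsSp b g H) (hh : IsSp m h K) (e : K ≃g G ⊕g H) (hfq : Qs a f) (hgq : Qs b g) :
    Qs m h := by
  classical
  have hms : ms K = ms G + ms H := by rw [ms_iso e, ms_sum]
  have hgb1 := gb_of_qs hfq
  have hgb2 := gb_of_qs hgq
  have htot : S h m = S f a + S g b := by
    have h1 := congrArg Multiset.sum hms
    rw [hh.eq, hf.eq, hg.eq, Multiset.sum_add] at h1
    have e1 : ∀ (k : ℕ → ℝ) (n : ℕ), ((Multiset.range n).map k).sum = S k n := by
      intro k n
      rfl
    rw [e1, e1, e1, S_succ, S_succ, S_succ, hh.zero m le_rfl, hf.zero a le_rfl,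
      hg.zero b le_rfl] at h1
    linarith
  have hsplit : ∀ p, p ≤ m → ∃ c d, c + d = p ∧ S h p ≤ S f c + S g d := by
    intro p hp
    let A : Multiset ℝ := (Multiset.range p).map h
    have hA : A ≤ ms G + ms H := by
      rw [← hms, hh.eq]
      apply Multiset.map_le_map
      rw [Multiset.range_le]
      omega
    have h1 : A - ms G ≤ ms H := by
      rw [tsub_le_iff_left]
      exact hA
    have h2 : A ∩ ms G ≤ ms G := Multiset.inter_le_right
    have h3 : A - ms G + A ∩ ms G = A := Multiset.sub_add_inter A (ms G)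
    refine ⟨Multiset.card (A ∩ ms G), Multiset.card (A - ms G), ?_, ?_⟩
    · rw [← Multiset.card_add, add_comm, h3]
      simp [A]
    · have h4 : S h p = A.sum := rfl
      have h5 : A.sum = (A ∩ ms G).sum + (A - ms G).sum := by
        rw [← Multiset.sum_add, add_comm, h3]
      rw [h4, h5]
      exact add_le_add (sum_sub_le hf.anti (a + 1) _ (by rw [← hf.eq]; exact h2))
        (sum_sub_le hg.anti (b + 1) _ (by rw [← hg.eq]; exact h1))
  apply Qs_of_ineq hh
  intro p q hp hpq hq
  obtain ⟨c, d, hcd, h1⟩ := hsplit p (by omega)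
  obtain ⟨c', d', hcd', h2⟩ := hsplit q hq
  have hpR : (p:ℝ) = c + d := by rw [← hcd]; push_cast; rfl
  have hqR : (q:ℝ) = c' + d' := by rw [← hcd']; push_cast; rfl
  rw [htot, hpR, hqR]
  have c0 : (0:ℝ) ≤ c := by positivity
  have d0 : (0:ℝ) ≤ d := by positivity
  have c0' : (0:ℝ) ≤ c' := by positivity
  have d0' : (0:ℝ) ≤ d' := by positivity
  rcases Nat.lt_or_ge c' c with hc | hc
  · have hd : d ≤ d' := by omega
    have a1 := hgb1 c' c hc.le
    have a2 := hgb2 d d' hd
    have hcR : (c':ℝ) ≤ c := by exact_mod_cast hc.le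
    nlinarith [mul_nonneg c0 d0', mul_nonneg d0 c0']
  · rcases Nat.lt_or_ge d' d with hd | hd
    · have a1 := hgb1 c c' hc
      have a2 := hgb2 d' d hd.le
      have hdR : (d':ℝ) ≤ d := by exact_mod_cast hd.le
      nlinarith [mul_nonneg c0 d0', mul_nonneg d0 c0']
    · have a1 := hgb1 c c' hc
      have a2 := hgb2 d d' hd
      nlinarith [mul_nonneg c0 d0', mul_nonneg d0 c0']

/-- Partial sums of the reversal. -/
lemma S_R {m : ℕ} {f : ℕ → ℝ} (p : ℕ) (hp : p ≤ m) :
    S (R m f) p = p * (m + 1) - (S f m - S f (m - p)) := by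
  induction p with
  | zero => simp [S]
  | succ k ih =>
    rw [S_succ, ih (by omega)]
    have h1 : k < m := by omega
    have h2 : S f (m - k) = S f (m - (k + 1)) + f (m - 1 - k) := by
      have : m - k = (m - (k + 1)) + 1 := by omega
      rw [this, S_succ]
      congr 2
      omega
    simp only [R, h1, if_true]
    rw [h2]
    push_cast
    ring

/-- Closure under complements. -/
lemma qs_compl {m : ℕ} {f g : ℕ → ℝ} {G : SimpleGraph (Fin (m + 1))} (hf : IsSp m f G)
    (hg : IsSp m g Gᶜ) (hfq : Qs m f) : Qs m g := by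
  have h1 : g = R m f := isSp_unique hg (isSp_R hf)
  subst h1
  apply Qs_of_ineq hg
  intro p q hp hpq hq
  rw [S_R p (by omega), S_R q hq, S_R m le_rfl, Nat.sub_self, S_zero]
  have h2 := gb_of_qs hfq (m - q) (m - p) (by omega)
  rw [Nat.cast_sub hq, Nat.cast_sub (by omega : p ≤ m)] at h2
  nlinarith

lemma cograph_pos {n : ℕ} {G : SimpleGraph (Fin n)} (h : IsCograph n G) : 1 ≤ n := by
  induction h with
  | single => exact le_rfl
  | compl _ ih => exact ih
  | union _ _ e ih1 ih2 =>
    obtain ⟨e⟩ := e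
    have := Fintype.card_congr e.toEquiv
    rw [Fintype.card_sum, Fintype.card_fin, Fintype.card_fin, Fintype.card_fin] at this
    omega

theorem cograph_qs {n : ℕ} {G : SimpleGraph (Fin n)} (h : IsCograph n G) :
    ∀ m, ∀ (hm : n = m + 1), ∀ f, IsSp m f (hm ▸ G) → Qs m f := by
  induction h with
  | single =>
    intro m hm f hf
    obtain rfl : m = 0 := by omega
    apply Qs_of_ineq hf
    intro p q hp hpq hq
    omega
  | @compl n G hG ih =>
    intro m hm f hf
    subst hm
    obtain ⟨g, hg⟩ := exists_isSp G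
    exact qs_compl hg hf (ih m rfl g hg)
  | @union a b n G H K hG hH e ih1 ih2 =>
    intro m hm f hf
    subst hm
    obtain ⟨a', rfl⟩ : ∃ a', a = a' + 1 := ⟨a - 1, by have := cograph_pos hG; omega⟩
    obtain ⟨b', rfl⟩ : ∃ b', b = b' + 1 := ⟨b - 1, by have := cograph_pos hH; omega⟩
    obtain ⟨g1, hg1⟩ := exists_isSp G
    obtain ⟨g2, hg2⟩ := exists_isSp H
    obtain ⟨e⟩ := e
    exact qs_union hg1 hg2 hf e (ih1 a' rfl g1 hg1) (ih2 b' rfl g2 hg2)

end Pool.Agent.MP_8604ae_co
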